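import Pool.Agent.Q36.HL.Im
import Pool.Agent.Q36.HB.Nu
import Pool.Agent.Q36.PT.Pt
import Pool.Agent.W619.Y.LMain

/-!
The logarithmic numerical dimension of varieties dominated by products of curves.
-/

set_option autoImplicit false
set_option linter.overlappingInstances false
set_option linter.unusedSectionVars false

open Polynomial FF IsDedekindDomain IntermediateField
open Pool.Agent.W603.LV Pool.Agent.W619.PQ Pool.Agent.W619.PL
  Pool.Agent.W619.TW Pool.Agent.W619.X Pool.Agent.W619.Y Q36.PT Q36.SD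

namespace Q36.HL

section

variable {k F : Type} [Field k] [Field F] [Algebra k F] [CharZero k] [IsFF k F] [IsAlgClosed k]

theorem nonneg_of_gon (S : Finset (Place k F)) (h : LogGon S 2) : 0 ≤ canDeg k F + S.card := by
  classical
  by_contra hcon
  obtain ⟨t, ht⟩ : ∃ t : F, k⟮t⟯ = ⊤ := by
    by_contra h1
    have := canDeg_nonneg h1
    omega
  have h1 := canDeg_rational ht
  have htt := transcendental_of_top ht
  obtain ⟨P0, -⟩ := exists_place (k := k) (K := F)
  have hne : Nonempty (Place k F) := ⟨P0⟩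
  obtain ⟨P, hP⟩ := Finset.card_le_one_iff_subset_singleton.1 (show S.card ≤ 1 by omega)
  obtain ⟨b, hb, hbP⟩ : ∃ b : F, k⟮b⟯ = ⊤ ∧ 0 < P.ord b := by
    rcases lt_or_ge (P.ord t) 0 with h2 | h2
    · refine ⟨t⁻¹, ?_, by rw [P.ord_inv]; omega⟩
      rw [eq_top_iff, ← ht, IntermediateField.adjoin_simple_le_iff]
      have h3 := inv_mem (IntermediateField.mem_adjoin_simple_self k t⁻¹)
      rwa [inv_inv] at h3
    · obtain ⟨c, hc⟩ := exists_const P (f := t) (Or.inr h2)
      refine ⟨t - algebraMap k F c, ?_, ?_⟩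
      · rw [eq_top_iff, ← ht, IntermediateField.adjoin_simple_le_iff]
        have h3 := add_mem (IntermediateField.mem_adjoin_simple_self k (t - algebraMap k F c))
          (k⟮t - algebraMap k F c⟯.algebraMap_mem c)
        rwa [sub_add_cancel] at h3
      · have := hc.resolve_left (sub_const_ne htt c)
        omega
  have h2 := h b (transcendental_of_top hb) fun Q hQ => by
    rw [Finset.mem_singleton.1 (hP hQ)]
    exact hbP
  have h3 := IntermediateField.finrank_eq_one_iff_eq_top.2 hb
  omega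

end

section

variable {k L M : Type} [Field k] [CharZero k] [IsAlgClosed k] [Field L] [Field M]
  [Algebra k L] [Algebra k M] [Algebra L M] [IsScalarTower k L M] [FiniteDimensional L M]
  {n : ℕ} (F : Fin n → IntermediateField k M)
  [hF : ∀ i, IsFF k (F i)]

theorem sec_div {K : Type} [Field K] [Algebra k K] {Bd : Place k K → Prop} {S : Finset K}
    {m j : ℕ} {ω : (Fin n → Derivation k K K) → K} (h : IsSec k K n Bd S m j ω) :
    IsSec k K n (fun v => Bd v ∧ IsDivisorial v n) S m j ω :=
  ⟨h.1, fun v hv hb => h.2.1 v hv fun h1 => hb ⟨h1, hv⟩, fun v hv hb => h.2.2 v hv hb.1⟩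

theorem numLe_div {K : Type} [Field K] [Algebra k K] {Bd : Place k K → Prop} {a : ℕ}
    (h : NumLe k K n (fun v => Bd v ∧ IsDivisorial v n) a) : NumLe k K n Bd a := by
  intro S
  obtain ⟨C, hC⟩ := h S
  refine ⟨C, fun m N hm hN => hC m N hm ?_⟩
  obtain ⟨ω, h1, h2⟩ := hN
  exact ⟨ω, h1, fun l => sec_div (h2 l)⟩

/-- **The upper bound for the logarithmic numerical dimension.** -/
theorem num_domL (hnM : Algebra.trdeg k M = n) (hsup : ⨆ i, F i = ⊤)
    (S : ∀ i, Finset (Place k (F i))) (hnn : ∀ i, 0 ≤ canDeg k (F i) + (S i).card)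
    (Bd : Place k L → Prop) (hBd : ∀ (w : Place k M) (v : Place k L) (e : ℕ),
      IsDivisorial w n → Over w v e → Bd v → ProdBd F S w) :
    NumLe k L n Bd (Finset.univ.filter fun i => 0 < canDeg k (F i) + (S i).card).card := by
  classical
  have hessM : Algebra.EssFiniteType k M := ess_of_sup F hsup
  have hessb := ess_bot k M
  have hessL : Algebra.EssFiniteType k L := ess_below (K := M)
  have hn : Algebra.trdeg k L = n := trdeg_below (K := M) hnM
  have hsup' : (⊥ : IntermediateField k M) ⊔ (⨆ i, F i) = ⊤ := by rw [bot_sup_eq]; exact hsup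
  have hfin : ∀ i, {p | p ∈ S i}.Finite := fun i => (S i).finite_toSet
  have hcard : ∀ i, {p | p ∈ S i}.ncard = (S i).card := fun i => Set.ncard_coe_finset (S i)
  obtain ⟨-, -, -, h4⟩ := pMANYB k M 0 n ⊥ F (fun _ => False) (fun i p => p ∈ S i) (trdeg_bot k M)
    (by rw [zero_add]; exact hnM) hsup' hfin
  have h5 := h4 0 (fun i => by rw [hcard]; exact hnn i) (numLe_bot k M)
  rw [zero_add, zero_add] at h5
  have h6 : {i | canDeg k (F i) + ({p | p ∈ S i}.ncard : ℤ) ≠ 0}.ncard =
      (Finset.univ.filter fun i => 0 < canDeg k (F i) + (S i).card).card := by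
    rw [← Set.ncard_coe_finset]
    congr 1
    ext i
    simp only [Finset.coe_filter, Finset.mem_univ, true_and, Set.mem_ofPred_eq]
    rw [hcard]
    have := hnn i
    omega
  rw [h6] at h5
  obtain ⟨-, -, h7⟩ := pTRANS k L M n hn (fun y hy => fin_over y hy) Bd
  refine h7 _ (numLe_div ?_)
  refine le_mono (fun w hw => ?_) h5
  obtain ⟨⟨v, e, hwv, hv⟩, hd⟩ := hw
  obtain ⟨i, q, e', h8, h9⟩ := hBd w v e hd hwv hv
  exact Or.inr ⟨i, q, e', h8, h9⟩

end

end Q36.HL
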