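import Pool.Agent.Q36.HL.Id
import Pool.Agent.Q36.HB.Eli

/-!
Elimination with derivatives for logarithmic differentials.
-/

set_option autoImplicit false
set_option linter.overlappingInstances false
set_option linter.unusedSectionVars false

open Polynomial FF IsDedekindDomain IntermediateField
open Pool.Agent.W603.LV Pool.Agent.W619.PQ Q36.SD Q36.HB

namespace Q36.HL

section

variable {k Ω : Type} [Field k] [CharZero k] [IsAlgClosed k] [Field Ω] [Algebra k Ω] {n : ℕ}
  {F : Fin n → Type} [∀ i, Field (F i)] [∀ i, Algebra k (F i)] [∀ i, IsFF k (F i)]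

/-- **Elimination.** -/
theorem elimL {D0 : ∀ i, Derivation k (F i) (F i)} (hD0 : ∀ i, D0 i ≠ 0)
    (S : ∀ i, Finset (Place k (F i))) {γ : Fin n → ℕ} (hγS : ∀ i, LogGon (S i) (γ i)) {Λ : Type} [Fintype Λ]
    (p : ∀ i, Λ → (F i →ₐ[k] Ω)) (c : Λ → Ω)
    (h : ∀ f : ∀ i, F i, (∀ i, LogDiff (D0 i) (S i) (f i)) → ∑ σ, c σ * ∏ i, p i σ (f i) = 0)
    (σ0 : Λ) (B : ∀ i, Finset (F i →ₐ[k] Ω)) (hB : ∀ i, p i σ0 ∉ B i)
    (hγ : ∀ i, (B i).card + 1 < γ i)
    (hkill : ∀ σ, σ ≠ σ0 → ∃ i, p i σ ∈ B i) : c σ0 = 0 := by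
  classical
  choose m a g hg h1 h0 h0' using fun i => kill_valL (hD0 i) (S i) (hγS i) (p i σ0) (B i)
    (fun _ => 1) (fun _ _ => Or.inl rfl) (hB i) (by simpa using hγ i)
  have key : ∑ σ, c σ * ∏ i, ∑ l, a i l * p i σ (g i l) = 0 := by
    have e1 : ∀ σ, c σ * ∏ i, ∑ l, a i l * p i σ (g i l) =
        ∑ q ∈ Fintype.piFinset fun i => (Finset.univ : Finset (Fin (m i))),
          (∏ i, a i (q i)) * (c σ * ∏ i, p i σ (g i (q i))) := by
      intro σ
      rw [Finset.prod_univ_sum, Finset.mul_sum]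
      refine Finset.sum_congr rfl fun q _ => ?_
      rw [Finset.prod_mul_distrib]
      ring
    rw [Finset.sum_congr rfl fun σ _ => e1 σ, Finset.sum_comm]
    refine Finset.sum_eq_zero fun q _ => ?_
    rw [← Finset.mul_sum, h (fun i => g i (q i)) (fun i => hg i _), mul_zero]
  rw [Finset.sum_eq_single σ0] at key
  · have h2 : ∏ i, ∑ l, a i l * p i σ0 (g i l) = 1 := Finset.prod_eq_one fun i _ => h1 i
    rwa [h2, mul_one] at key
  · intro σ _ hσ
    obtain ⟨i, hi⟩ := hkill σ hσ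
    rw [Finset.prod_eq_zero (Finset.mem_univ i) (h0 i _ hi), mul_zero]
  · intro h
    exact absurd (Finset.mem_univ σ0) h

/-- **Elimination with derivatives.** -/
theorem elim_jetL {D0 : ∀ i, Derivation k (F i) (F i)} (S : ∀ i, Finset (Place k (F i))) {Λ : Type} [Fintype Λ]
    (p : ∀ i, Λ → (F i →ₐ[k] Ω)) (c : Λ → Ω) (d : Fin n → Λ → Ω)
    (h : ∀ f : ∀ i, F i, (∀ i, LogDiff (D0 i) (S i) (f i)) →
      ∑ σ, (c σ * ∏ j, p j σ (f j) +
        ∑ i, d i σ * ∏ j, p j σ (if j = i then D0 j (f j) else f j)) = 0)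
    (σ0 : Λ) (i0 : Fin n) (m : Fin n → ℕ) (a : ∀ i, Fin (m i) → Ω) (g : ∀ i, Fin (m i) → F i)
    (hg : ∀ i l, LogDiff (D0 i) (S i) (g i l))
    (h0 : ∑ l, a i0 l * p i0 σ0 (g i0 l) = 0)
    (h0' : ∑ l, a i0 l * p i0 σ0 (D0 i0 (g i0 l)) = 1)
    (h1 : ∀ i, i ≠ i0 → ∑ l, a i l * p i σ0 (g i l) = 1)
    (hkill : ∀ σ, σ ≠ σ0 → (∃ i, ∑ l, a i l * p i σ (g i l) = 0 ∧
        ∑ l, a i l * p i σ (D0 i (g i l)) = 0) ∨
      ∃ i j, i ≠ j ∧ ∑ l, a i l * p i σ (g i l) = 0 ∧ ∑ l, a j l * p j σ (g j l) = 0) :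
    d i0 σ0 = 0 := by
  classical
  let V : Fin n → Λ → Fin n → Ω := fun i σ j =>
    ∑ l, a j l * p j σ (if j = i then D0 j (g j l) else g j l)
  have hVe : ∀ i σ, V i σ i = ∑ l, a i l * p i σ (D0 i (g i l)) := by
    intro i σ
    simp only [V, if_true]
  have hVn : ∀ i σ j, j ≠ i → V i σ j = ∑ l, a j l * p j σ (g j l) := by
    intro i σ j hj
    simp only [V, if_neg hj]
  have key : ∑ σ, (c σ * ∏ j, ∑ l, a j l * p j σ (g j l) +
      ∑ i, d i σ * ∏ j, V i σ j) = 0 := by
    have e1 : ∀ σ, c σ * ∏ j, ∑ l, a j l * p j σ (g j l) =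
        ∑ q ∈ Fintype.piFinset fun i => (Finset.univ : Finset (Fin (m i))),
          (∏ i, a i (q i)) * (c σ * ∏ j, p j σ (g j (q j))) := by
      intro σ
      rw [Finset.prod_univ_sum, Finset.mul_sum]
      refine Finset.sum_congr rfl fun q _ => ?_
      rw [Finset.prod_mul_distrib]
      ring
    have e2 : ∀ σ, ∑ i, d i σ * ∏ j, V i σ j =
        ∑ q ∈ Fintype.piFinset fun i => (Finset.univ : Finset (Fin (m i))),
          (∏ i, a i (q i)) * ∑ i, d i σ *
            ∏ j, p j σ (if j = i then D0 j (g j (q j)) else g j (q j)) := by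
      intro σ
      have e3 : ∀ i, d i σ * ∏ j, V i σ j =
          ∑ q ∈ Fintype.piFinset fun i => (Finset.univ : Finset (Fin (m i))),
          (∏ i, a i (q i)) * (d i σ *
            ∏ j, p j σ (if j = i then D0 j (g j (q j)) else g j (q j))) := by
        intro i
        simp only [V]
        rw [Finset.prod_univ_sum, Finset.mul_sum]
        refine Finset.sum_congr rfl fun q _ => ?_
        rw [Finset.prod_mul_distrib]
        ring
      rw [Finset.sum_congr rfl fun i _ => e3 i, Finset.sum_comm]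
      refine Finset.sum_congr rfl fun q _ => ?_
      rw [Finset.mul_sum]
    have e4 : ∀ σ, (c σ * ∏ j, ∑ l, a j l * p j σ (g j l) + ∑ i, d i σ * ∏ j, V i σ j) =
        ∑ q ∈ Fintype.piFinset fun i => (Finset.univ : Finset (Fin (m i))),
          (∏ i, a i (q i)) * (c σ * ∏ j, p j σ (g j (q j)) + ∑ i, d i σ *
            ∏ j, p j σ (if j = i then D0 j (g j (q j)) else g j (q j))) := by
      intro σ
      rw [e1, e2, ← Finset.sum_add_distrib]
      refine Finset.sum_congr rfl fun q _ => ?_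
      ring
    rw [Finset.sum_congr rfl fun σ _ => e4 σ, Finset.sum_comm]
    refine Finset.sum_eq_zero fun q _ => ?_
    rw [← Finset.mul_sum, h (fun i => g i (q i)) (fun i => hg i _), mul_zero]
  rw [Finset.sum_eq_single σ0] at key
  · have h2 : ∏ j, ∑ l, a j l * p j σ0 (g j l) = 0 :=
      Finset.prod_eq_zero (Finset.mem_univ i0) h0
    rw [h2, mul_zero, zero_add, Finset.sum_eq_single i0] at key
    · have h3 : ∏ j, V i0 σ0 j = 1 := by
        refine Finset.prod_eq_one fun j _ => ?_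
        by_cases hj : j = i0
        · subst hj
          rw [hVe]
          exact h0'
        · rw [hVn _ _ _ hj]
          exact h1 j hj
      rwa [h3, mul_one] at key
    · intro i _ hi
      have h3 : ∏ j, V i σ0 j = 0 := by
        refine Finset.prod_eq_zero (Finset.mem_univ i0) ?_
        rw [hVn _ _ _ (Ne.symm hi)]
        exact h0
      rw [h3, mul_zero]
    · intro h
      exact absurd (Finset.mem_univ i0) h
  · intro σ _ hσ
    rcases hkill σ hσ with ⟨i, hi1, hi2⟩ | ⟨i, j, hij, hi, hj⟩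
    · rw [Finset.prod_eq_zero (Finset.mem_univ i) hi1, mul_zero, zero_add]
      refine Finset.sum_eq_zero fun i' _ => ?_
      have h3 : ∏ j, V i' σ j = 0 := by
        refine Finset.prod_eq_zero (Finset.mem_univ i) ?_
        by_cases h : i = i'
        · subst h
          rw [hVe]
          exact hi2
        · rw [hVn _ _ _ h]
          exact hi1
      rw [h3, mul_zero]
    · rw [Finset.prod_eq_zero (Finset.mem_univ i) hi, mul_zero, zero_add]
      refine Finset.sum_eq_zero fun i' _ => ?_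
      have h3 : ∏ j, V i' σ j = 0 := by
        by_cases h : i = i'
        · subst h
          refine Finset.prod_eq_zero (Finset.mem_univ j) ?_
          rw [hVn _ _ _ (Ne.symm hij)]
          exact hj
        · refine Finset.prod_eq_zero (Finset.mem_univ i) ?_
          rw [hVn _ _ _ h]
          exact hi
      rw [h3, mul_zero]
  · intro h
    exact absurd (Finset.mem_univ σ0) h

end

section

variable {k L M : Type} [Field k] [CharZero k] [IsAlgClosed k] [Field L] [Field M]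
  [Algebra k L] [Algebra k M] [Algebra L M] [IsScalarTower k L M] [FiniteDimensional L M]
  {n : ℕ} (F : Fin n → IntermediateField k M) [hF : ∀ i, IsFF k (F i)]

/-- **Elimination under Hall's condition.** -/
theorem elim_hallL {γ : Fin n → ℕ} (hγ2 : ∀ i, 2 ≤ γ i)
    (S : ∀ i, Finset (Place k (F i)))
    (hγ : ∀ i, LogGon (S i) (γ i))
    (B : Finset (Fin n))
    (hB : ∀ i ∈ B, 2 * Module.finrank L (IntermediateField.adjoin L (F i : Set M)) < γ i)
    (hQ : ∀ Q : Finset (Fin n), Disjoint Q B →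
      Module.finrank (IntermediateField.adjoin L {z : M | ∃ j, j ∉ Q ∧ z ∈ F j}) M = 1 ∨
      2 * Module.finrank (IntermediateField.adjoin L {z : M | ∃ j, j ∉ Q ∧ z ∈ F j}) M ≤
        1 + ∑ j ∈ Q, (γ j - 2))
    {D0 : ∀ i, Derivation k (F i) (F i)} (hD0 : ∀ i, D0 i ≠ 0)
    {Ω : Type} [Field Ω] [Algebra k Ω] [Algebra L Ω] [IsScalarTower k L Ω]
    [Fintype (M →ₐ[L] Ω)]
    (c : (M →ₐ[L] Ω) → Ω) (d : Fin n → (M →ₐ[L] Ω) → Ω)
    (h : ∀ f : ∀ i, F i, (∀ i, LogDiff (D0 i) (S i) (f i)) →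
      ∑ σ : M →ₐ[L] Ω, (c σ * ∏ j, res F j σ (f j) +
        ∑ i, d i σ * ∏ j, res F j σ (if j = i then D0 j (f j) else f j)) = 0)
    (i0 : Fin n) (hi0 : 0 < canDeg k (F i0) + (S i0).card)
    (hi0' : ¬ (canDeg k (F i0) = 0 ∧ (S i0).card = 1)) (σ0 : M →ₐ[L] Ω) : d i0 σ0 = 0 := by
  classical
  let p : ∀ i, (M →ₐ[L] Ω) → (F i →ₐ[k] Ω) := fun i => res F i
  let cap : Fin n → ℕ := fun i => if i = i0 then γ i - 3 else γ i - 2
  have hcap : ∀ Q : Finset (Fin n), ∑ j ∈ Q, (γ j - 2) ≤ ∑ j ∈ Q, cap j + 1 := by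
    intro Q
    have h1 : ∀ j ∈ Q, γ j - 2 ≤ cap j + if j = i0 then 1 else 0 := by
      intro j _
      simp only [cap]
      split_ifs <;> omega
    refine (Finset.sum_le_sum h1).trans ?_
    rw [Finset.sum_add_distrib]
    have h2 : ∑ j ∈ Q, (if j = i0 then 1 else 0) ≤ 1 := by
      rw [Finset.sum_ite_eq']
      split_ifs <;> simp
    omega
  obtain ⟨K, μ, hK0, hμ, hKcap, hKB, hkill⟩ := assign p σ0 B cap (fun Q hQB => by
    have h1 := card_fix (L := L) (Ω := Ω) {z : M | ∃ j, j ∉ Q ∧ z ∈ F j}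
      (insert σ0 (Finset.univ.filter fun σ => σ ≠ σ0 ∧ ∀ i, i ∉ Q → p i σ = p i σ0)) σ0 (by
        intro σ hσ z hz
        rcases Finset.mem_insert.1 hσ with rfl | hσ
        · rfl
        · obtain ⟨j, hj, hzj⟩ := hz
          exact congrArg (fun φ : F j →ₐ[k] Ω => φ ⟨z, hzj⟩) ((Finset.mem_filter.1 hσ).2.2 j hj))
    rw [Finset.card_insert_of_notMem (by simp)] at h1
    have h2 := hcap Q
    rcases hQ Q hQB with h3 | h3 <;> omega)
  have hKB' : ∀ i ∈ B, ∑ x ∈ K i, μ i x + 2 < γ i := by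
    intro i hi
    obtain ⟨h1, h2⟩ := hKB i hi
    have h3 : ∑ x ∈ K i, μ i x = (K i).card * 2 := by
      rw [Finset.sum_congr rfl fun x _ => h2 x, Finset.sum_const, smul_eq_mul]
    have h4 : (K i).card + 1 = (Finset.univ.image (p i)).card := by
      rw [h1]
      exact Finset.card_erase_add_one (Finset.mem_image_of_mem _ (Finset.mem_univ σ0))
    have h5 := card_res (L := L) (Ω := Ω) F i
    have h6 := hB i hi
    have h7 : (Finset.univ.image (p i)).card ≤
      Module.finrank L (IntermediateField.adjoin L (F i : Set M)) := h5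
    omega
  -- the functionals
  have hex : ∀ i, ∃ (m : ℕ) (a : Fin m → Ω) (g : Fin m → F i), (∀ l, LogDiff (D0 i) (S i) (g l)) ∧
      (if i = i0 then ∑ l, a l * p i σ0 (g l) = 0 ∧ ∑ l, a l * p i σ0 (D0 i (g l)) = 1
        else ∑ l, a l * p i σ0 (g l) = 1) ∧
      (∀ φ ∈ K i, ∑ l, a l * φ (g l) = 0) ∧
      ∀ φ ∈ K i, μ i φ = 2 → ∑ l, a l * φ (D0 i (g l)) = 0 := by
    intro i
    by_cases hi : i = i0
    · simp only [if_pos hi]
      by_cases h3 : (∑ x ∈ K i, μ i x) + 2 < γ i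
      · obtain ⟨m, a, g, h1, h2, h4, h5, h6⟩ := kill_jetL (hD0 i) (S i) (hγ i) (p i σ0) (K i) (μ i) (hμ i)
          (hK0 i) h3
        exact ⟨m, a, g, h1, ⟨h2, h4⟩, h5, h6⟩
      · have hiB : i ∉ B := fun h => h3 (hKB' i h)
        have h4 := hKcap i hiB
        simp only [cap, if_pos hi] at h4
        have h5 := hγ2 i
        have h6 : ∑ x ∈ K i, μ i x = 0 := by omega
        have h7 : K i = ∅ := by
          by_contra hne
          obtain ⟨x, hx⟩ := Finset.nonempty_iff_ne_empty.2 hne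
          have h8 := (Finset.sum_eq_zero_iff.1 h6) x hx
          rcases hμ i x hx with h9 | h9 <;> omega
        subst hi
        obtain ⟨f, g, hf, hg, hf0, hfg⟩ := two_diffL (hD0 i) (S i)
          (fun b hb hb2 => h5.trans (hγ i b hb hb2)) hi0 hi0'
        obtain ⟨m, a, g, h1, h2, h8⟩ := jet_oneL (hD0 i) (S i) (p i σ0) hf hg hf0 hfg
        refine ⟨m, a, g, h1, ⟨h2, h8⟩, ?_, ?_⟩
        · rw [h7]
          simp
        · rw [h7]
          simp
    · simp only [if_neg hi]
      have h3 : (∑ x ∈ K i, μ i x) + 1 < γ i := by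
        by_cases hiB : i ∈ B
        · have := hKB' i hiB
          omega
        · have h4 := hKcap i hiB
          simp only [cap, if_neg hi] at h4
          have h5 := hγ2 i
          omega
      exact kill_valL (hD0 i) (S i) (hγ i) (p i σ0) (K i) (μ i) (hμ i) (hK0 i) h3
  choose m a g hg h1 h2 h3 using hex
  have h10 := h1 i0
  rw [if_pos rfl] at h10
  refine elim_jetL S p c d h σ0 i0 m a g hg h10.1 h10.2 (fun i hi => ?_) (fun σ hσ => ?_)
  · have := h1 i
    rwa [if_neg hi] at this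
  · rcases hkill σ hσ with ⟨i, hi1, hi2⟩ | ⟨i, j, hij, hi, hj⟩
    · exact Or.inl ⟨i, h2 i _ hi1, h3 i _ hi1 hi2⟩
    · exact Or.inr ⟨i, j, hij, h2 i _ hi, h2 j _ hj⟩

/-- **Elimination of values under Hall's condition.** -/
theorem elim_hall_oneL {γ : Fin n → ℕ} (hγ2 : ∀ i, 2 ≤ γ i)
    (S : ∀ i, Finset (Place k (F i)))
    (hγ : ∀ i, LogGon (S i) (γ i))
    (B : Finset (Fin n))
    (hB : ∀ i ∈ B, Module.finrank L (IntermediateField.adjoin L (F i : Set M)) < γ i)
    (hQ : ∀ Q : Finset (Fin n), Disjoint Q B →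
      Module.finrank (IntermediateField.adjoin L {z : M | ∃ j, j ∉ Q ∧ z ∈ F j}) M ≤
        1 + ∑ j ∈ Q, (γ j - 2))
    {D0 : ∀ i, Derivation k (F i) (F i)} (hD0 : ∀ i, D0 i ≠ 0) (J : M)
    (hrel : ∀ f : ∀ i, F i, (∀ i, LogDiff (D0 i) (S i) (f i)) →
      Algebra.trace L M (J * ∏ i, (f i : M)) = 0) : J = 0 := by
  classical
  have hchar : CharZero L := charZero_of_injective_algebraMap (algebraMap k L).injective
  have hsep : Algebra.IsSeparable L M := inferInstance
  let Ω := AlgebraicClosure M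
  have hΛ : Fintype.card (M →ₐ[L] Ω) = Module.finrank L M := AlgHom.card L M Ω
  have hpos : 0 < Module.finrank L M := Module.finrank_pos
  obtain ⟨σ0⟩ : Nonempty (M →ₐ[L] Ω) := Fintype.card_pos_iff.1 (by rw [hΛ]; exact hpos)
  let p : ∀ i, (M →ₐ[L] Ω) → (F i →ₐ[k] Ω) := fun i => res F i
  obtain ⟨K, hK0, hKcap, hKB, hkill⟩ := assign_one p σ0 B (fun i => γ i - 2) (fun Q hQB => by
    have h1 := card_fix (L := L) (Ω := Ω) {z : M | ∃ j, j ∉ Q ∧ z ∈ F j}
      (insert σ0 (Finset.univ.filter fun σ => σ ≠ σ0 ∧ ∀ i, i ∉ Q → p i σ = p i σ0)) σ0 (by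
        intro σ hσ z hz
        rcases Finset.mem_insert.1 hσ with rfl | hσ
        · rfl
        · obtain ⟨j, hj, hzj⟩ := hz
          exact congrArg (fun φ : F j →ₐ[k] Ω => φ ⟨z, hzj⟩) ((Finset.mem_filter.1 hσ).2.2 j hj))
    rw [Finset.card_insert_of_notMem (by simp)] at h1
    have h3 := hQ Q hQB
    omega)
  have hfin := elimL (Ω := Ω) hD0 S hγ p (fun σ => σ J) (fun f hf => by
    have h1 := hrel f hf
    have h2 := trace_eq_sum_embeddings (K := L) (L := M) (x := J * ∏ i, (f i : M)) Ω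
    rw [h1, map_zero] at h2
    rw [h2]
    refine Finset.sum_congr rfl fun σ _ => ?_
    rw [map_mul, map_prod]
    rfl) σ0 K hK0 (fun i => by
      by_cases hiB : i ∈ B
      · have h4 : (K i).card + 1 = (Finset.univ.image (p i)).card := by
          rw [hKB i hiB]
          exact Finset.card_erase_add_one (Finset.mem_image_of_mem _ (Finset.mem_univ σ0))
        have h5 := card_res (L := L) (Ω := Ω) F i
        have h6 := hB i hiB
        have h7 : (Finset.univ.image (p i)).card ≤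
          Module.finrank L (IntermediateField.adjoin L (F i : Set M)) := h5
        omega
      · have h2 := hKcap i hiB
        have h3 := hγ2 i
        omega) hkill
  exact (map_eq_zero σ0).1 hfin

end

end Q36.HL
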