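import Pool.Agent.Q36.SD.Fo
import Pool.Agent.Q36.HL.In
import Pool.Agent.Q36.HB.Tf

/-!
The exterior products of logarithmic differentials on the curves, and the traces of logarithmic
canonical forms.
-/

set_option autoImplicit false
set_option linter.overlappingInstances false
set_option linter.unusedSectionVars false

open Polynomial FF IsDedekindDomain IntermediateField
open Pool.Agent.W602.GT Pool.Agent.W603.LV Pool.Agent.W619.PQ Pool.Agent.W619.TW
  Pool.Agent.Y172 Pool.Agent.Y692.NT Q36.SD

namespace Q36.HL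

section

variable {k M : Type} [Field k] [CharZero k] [IsAlgClosed k] [Field M] [Algebra k M]
  {n : ℕ} (F : Fin n → IntermediateField k M) [hF : ∀ i, IsFF k (F i)]

/-- regularity outside the boundary -/
theorem wedge_regL {D0 : ∀ i, Derivation k (F i) (F i)} (hD0 : ∀ i, D0 i ≠ 0) {t f : ∀ i, F i}
    (ht : ∀ i, Transcendental k (t i)) (S : ∀ i, Finset (Place k (F i)))
    (hf : ∀ i, LogDiff (D0 i) (S i) (f i)) (v : Place k M)
    (hv : ∀ (i : Fin n) (q : Place k (F i)) (e : ℕ), Over v q e → q ∉ S i) :
    RegAt v (wedge F D0 t f) := by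
  classical
  intro D hD
  by_cases hf0 : ∃ i, f i = 0
  · obtain ⟨i, hi⟩ := hf0
    left
    unfold wedge
    rw [Finset.prod_eq_zero (Finset.mem_univ i), zero_mul]
    rw [hi]
    change (0 : M) / _ = 0
    rw [zero_div]
  push Not at hf0
  rw [wedge_tens]
  refine tensForm_regular 1 D0 hD0 t f ht hf0 v
    (fun i => if ∀ f : F i, v.ord (algebraMap (F i) M f) = 0 then 0 else 1) (fun i => ?_) ?_
    (fun _ => D) (fun _ j => hD j)
  · by_cases h : ∀ f : F i, v.ord (algebraMap (F i) M f) = 0
    · left
      exact ⟨h, if_pos h⟩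
    · right
      push Not at h
      obtain ⟨e, q, hq⟩ := exists_over (K := F i) v h
      refine ⟨q, e, hq, ?_⟩
      rw [if_neg (by push Not; exact h)]
      have h1 := (hf i q).resolve_left (hf0 i)
      rw [ep_not (hv i q e hq), sub_zero] at h1
      have h2 : (1 : ℚ) ≤ e := by exact_mod_cast hq.1
      have h3 : (1 : ℚ) ≤ (q.ord (f i) : ℚ) + (1 : ℕ) * (1 - vo q (D0 i)) := by
        have : ((vo q (D0 i) : ℤ) : ℚ) ≤ (q.ord (f i) : ℚ) := by exact_mod_cast h1
        push_cast
        linarith
      push_cast
      push_cast at h3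
      nlinarith
  · by_cases h : ∀ i, ∀ f : F i, v.ord (algebraMap (F i) M f) = 0
    · exact Or.inl h
    · right
      push Not at h
      obtain ⟨i, hi⟩ := h
      have h1 : (∑ j, if ∀ f : F j, v.ord (algebraMap (F j) M f) = 0 then (0 : ℚ) else 1) ≥
          if ∀ f : F i, v.ord (algebraMap (F i) M f) = 0 then (0 : ℚ) else 1 :=
        Finset.single_le_sum (f := fun j => if ∀ f : F j, v.ord (algebraMap (F j) M f) = 0
          then (0 : ℚ) else 1) (fun j _ => by positivity) (Finset.mem_univ i)
      rw [if_neg (by push Not; exact hi)] at h1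
      exact h1

/-- logarithmic poles -/
theorem wedge_logL {D0 : ∀ i, Derivation k (F i) (F i)} (hD0 : ∀ i, D0 i ≠ 0) {t f : ∀ i, F i}
    (ht : ∀ i, Transcendental k (t i)) (S : ∀ i, Finset (Place k (F i)))
    (hf : ∀ i, LogDiff (D0 i) (S i) (f i)) (v : Place k M) :
    LogAt v (wedge F D0 t f) := by
  classical
  intro D hD
  by_cases hf0 : ∃ i, f i = 0
  · obtain ⟨i, hi⟩ := hf0
    left
    unfold wedge
    rw [Finset.prod_eq_zero (Finset.mem_univ i), zero_mul]
    rw [hi]
    change (0 : M) / _ = 0
    rw [zero_div]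
  push Not at hf0
  rw [wedge_tens]
  have hz : ∀ i, ∃ z : F i, Transcendental k z ∧
      0 ≤ v.ord (algebraMap (F i) M (f i * (z / D0 i z) ^ 1)) := by
    intro i
    by_cases h : ∀ f : F i, v.ord (algebraMap (F i) M f) = 0
    · exact ⟨t i, ht i, (h _).ge⟩
    · push Not at h
      obtain ⟨e, p, hp⟩ := exists_over (K := F i) v h
      obtain ⟨z, hz0, hz⟩ := p.surj
      have hzt : Transcendental k z := p.transcendental_of_ord_ne (by omega)
      refine ⟨z, hzt, ?_⟩
      have hDz := der_ne_zero (hD0 i) hzt
      have h1 := (hf i p).resolve_left (hf0 i)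
      have h2 := ep_le (S i) p
      rw [hp.2, p.ord_mul (hf0 i) (pow_ne_zero _ (div_ne_zero hz0 hDz)), p.ord_pow,
        p.ord_div hz0 hDz, hz, vo_eq p hz (hD0 i)]
      have h3 : (0 : ℤ) ≤ p.ord (f i) + (1 : ℕ) * (1 - vo p (D0 i)) := by
        push_cast
        omega
      positivity
  choose z hz1 hz2 using hz
  rw [tensForm_eq 1 D0 hD0 t f ht z hz1]
  have hz0 : ∀ i, z i ≠ 0 := fun i h => hz1 i (by rw [h]; exact isAlgebraic_zero)
  have hne : ∀ i, algebraMap (F i) M (f i * (z i / D0 i (z i)) ^ 1) ≠ 0 := by
    intro i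
    rw [Ne, map_eq_zero]
    exact mul_ne_zero (hf0 i) (pow_ne_zero _ (div_ne_zero (hz0 i) (der_ne_zero (hD0 i) (hz1 i))))
  have h1 : Ge v 0 (∏ i, algebraMap (F i) M (f i * (z i / D0 i (z i)) ^ 1)) := by
    right
    rw [ord_prod _ _ _ fun i _ => hne i]
    exact Finset.sum_nonneg fun i _ => hz2 i
  rw [Finset.prod_const, Finset.card_univ, Fintype.card_fin, pow_one]
  refine v.reg_mul h1 ?_
  have h9 : Ge v 0 (Matrix.of fun j i =>
      D j (algebraMap (F i) M (z i)) / algebraMap (F i) M (z i) : Matrix (Fin n) (Fin n) M).det :=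
    ge_det v _ _ (fun _ _ => 0) (fun a b => hD a _) fun σ => by simp
  exact h9

end

section

variable {k K L : Type} [Field k] [CharZero k] [Field K] [Field L] [Algebra k K] [Algebra k L]
  [Algebra K L] [IsScalarTower k K L] [FiniteDimensional K L] [Algebra.EssFiniteType k K]
  [Algebra.EssFiniteType k L] {n : ℕ}

/-- **The trace of a logarithmic canonical form is a logarithmic canonical form.** -/
theorem trace_pluriL (hn : Algebra.trdeg k K = n) (Bd : Place k K → Prop)
    (W : (Fin n → Derivation k L L) → L) (hW : IsPluri 1 W)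
    (hreg : ∀ (Q : Place k L) (P : Place k K) (e : ℕ), Over Q P e → Divisorial n Q → ¬ Bd P →
      RegAt Q W)
    (hlog : ∀ Q : Place k L, Divisorial n Q → LogAt Q W) :
    ∃ ω : (Fin n → Derivation k K K) → K, IsPluri 1 ω ∧
      (∀ P : Place k K, Divisorial n P → ¬ Bd P → RegAt P ω) ∧
      (∀ P : Place k K, Divisorial n P → LogAt P ω) ∧
      ∀ (E₀ : Fin n → Derivation k K K) (E₀' : Fin n → Derivation k L L),
        (∀ i f, E₀' i (algebraMap K L f) = algebraMap K L (E₀ i f)) →
        ω E₀ = Algebra.trace K L (W E₀') := by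
  classical
  have hnL : Algebra.trdeg k L = n := trdeg_up (K := K) hn
  obtain ⟨y, E, hy, hE⟩ := exists_crd hn
  choose E' hE' using fun i => exists_lift (L := L) hn (E i)
  have hyL : IsTranscendenceBasis k (fun j => algebraMap K L (y j)) := hy.algebraMap_comp
  have hEL := lift_dual hE hE'
  have hval : ∀ (E₀ : Fin n → Derivation k K K) (E₀' : Fin n → Derivation k L L),
        (∀ i f, E₀' i (algebraMap K L f) = algebraMap K L (E₀ i f)) →
        (Matrix.of fun i j => E₀ i (y j) : Matrix (Fin n) (Fin n) K).det *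
          Algebra.trace K L (W E') = Algebra.trace K L (W E₀') := by
    intro E₀ E₀' hE₀'
    have h3 : W E₀' =
        algebraMap K L (Matrix.of fun i j => E₀ i (y j) : Matrix (Fin n) (Fin n) K).det *
        W E' := by
      have h4 := pluri_coord hyL hEL hW E₀'
      rw [h4, pow_one]
      congr 1
      rw [RingHom.map_det]
      congr 1
      ext i j
      rw [Matrix.of_apply, RingHom.mapMatrix_apply, Matrix.map_apply, Matrix.of_apply]
      exact hE₀' i (y j)
    rw [h3, ← Algebra.smul_def, map_smul, smul_eq_mul]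
  refine ⟨fun D => (Matrix.of fun i j => D i (y j) : Matrix (Fin n) (Fin n) K).det *
    Algebra.trace K L (W E'), ?_, ?_, ?_, hval⟩
  · intro A D
    have e1 : (Matrix.of fun a b => (∑ j, A a j • D j) (y b)) =
        A * Matrix.of fun a b => D a (y b) := by
      ext a b
      rw [Matrix.of_apply, Matrix.mul_apply, sum_smul_apply]
      rfl
    change (Matrix.of fun a b => (∑ j, A a j • D j) (y b)).det * _ = _
    rw [e1, Matrix.det_mul, pow_one, mul_assoc]
  · intro P hP hB G hG
    obtain ⟨yP, EP, i0, hl⟩ := exists_loc hn hP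
    choose EP' hEP' using fun i => exists_lift (L := L) hn (EP i)
    have h0 : (Matrix.of fun i j => G i (y j) : Matrix (Fin n) (Fin n) K).det *
        Algebra.trace K L (W E') =
        (Matrix.of fun i j => G i (yP j) : Matrix (Fin n) (Fin n) K).det *
          Algebra.trace K L (W EP') := by
      have hC : (Matrix.of fun i j => G i (y j) : Matrix (Fin n) (Fin n) K).det =
          (Matrix.of fun i j => G i (yP j) : Matrix (Fin n) (Fin n) K).det *
          (Matrix.of fun i j => EP i (y j) : Matrix (Fin n) (Fin n) K).det := by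
        rw [← Matrix.det_mul]
        congr 1
        ext i j
        rw [Matrix.of_apply, Matrix.mul_apply]
        have h1 := Pool.Agent.W73.PG.PULL.expand yP hl.bas EP hl.dual (G i)
        conv_lhs => rw [← h1]
        rw [sum_smul_apply]
        rfl
      rw [hC, mul_assoc, hval EP EP' hEP']
    change P.Reg ((Matrix.of fun i j => G i (y j) : Matrix (Fin n) (Fin n) K).det *
        Algebra.trace K L (W E'))
    rw [h0]
    refine P.reg_mul ?_ ?_
    · have h9 : Ge P 0 (Matrix.of fun i j => G i (yP j) : Matrix (Fin n) (Fin n) K).det :=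
        ge_det P _ _ (fun _ _ => 0) (fun a b => hG a _ (hl.reg b)) fun σ => by simp
      exact h9
    · refine Pool.Agent.Y692.NT.trace_reg P (W EP') fun Q e hQ => ?_
      have hQd : Divisorial n Q := divisorial_up hQ hP
      have h1 := down_ge hnL hQ hQd hl hEP' hW (c := 0) (fun G' hG' => by
        rcases hreg Q P e hQ hQd hB G' hG' with h | h
        · exact Or.inl h
        · exact Or.inr (by exact_mod_cast h))
      rcases h1 with h1 | h1
      · exact Or.inl h1
      · right
        have h2 : ((1 - e : ℤ) : ℝ) ≤ (Q.ord (W EP') : ℝ) := by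
          push_cast
          push_cast at h1
          linarith
        exact_mod_cast h2
  · intro P hP G hG
    choose G' hG' using fun i => exists_lift (L := L) hn (G i)
    change P.Reg ((Matrix.of fun i j => G i (y j) : Matrix (Fin n) (Fin n) K).det *
        Algebra.trace K L (W E'))
    rw [hval G G' hG']
    refine Pool.Agent.Y692.NT.trace_reg P (W G') fun Q e hQ => ?_
    have hQd : Divisorial n Q := divisorial_up hQ hP
    rcases hlog Q hQd G' (fun i => lift_log hQ (hG i) (hG' i)) with h | h
    · exact Or.inl h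
    · right
      have := hQ.1
      omega

end

end Q36.HL
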