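import Pool.Agent.Q36.HL.In
import Pool.Agent.Q36.HB.Id
import Pool.Agent.W619.TW.Hyp

/-!
Logarithmic differentials with prescribed values and derivatives at finitely many embeddings.
-/

set_option autoImplicit false
set_option linter.overlappingInstances false
set_option linter.unusedSectionVars false

open Polynomial FF IsDedekindDomain IntermediateField
open Pool.Agent.W603.LV Pool.Agent.W619.PQ Pool.Agent.W619.TW Q36.SD

namespace Q36.HL

section

variable {k F : Type} [Field k] [Field F] [Algebra k F] [CharZero k] [IsFF k F] [IsAlgClosed k]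
  {Ω : Type} [Field Ω] [Algebra k Ω]

/-- **Prescribed jets.** -/
theorem jetsL {ι : Type} [Fintype ι] {D : Derivation k F F} (hD : D ≠ 0)
    (S : Finset (Place k F)) {γ : ℕ} (hγS : LogGon S γ) (φ : ι → (F →ₐ[k] Ω))
    (hφ : Function.Injective φ) (n : ι → ℕ) (hn : ∀ i, n i = 1 ∨ n i = 2)
    (hγ : ∑ i, n i < γ)
    (v w : ι → Ω) (hw : ∀ i, n i = 1 → w i = 0) :
    ∃ (m : ℕ) (a : Fin m → Ω) (g : Fin m → F), (∀ l, LogDiff D S (g l)) ∧
      (∀ i, ∑ l, a l * φ i (g l) = v i) ∧
      ∀ i, n i = 2 → ∑ l, a l * φ i (D (g l)) = w i := by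
  classical
  obtain ⟨m, g, hg1, hg2⟩ := exists_basisL hD S
  let T : (Fin m → Ω) →ₗ[Ω] ((ι → Ω) × (ι → Ω)) :=
    { toFun := fun a => (fun i => ∑ l, a l * φ i (g l),
        fun i => if n i = 2 then ∑ l, a l * φ i (D (g l)) else 0)
      map_add' := by
        intro a b
        refine Prod.ext ?_ ?_
        · funext i
          simp only [Pi.add_apply, add_mul, Finset.sum_add_distrib, Prod.fst_add]
        · funext i
          simp only [Pi.add_apply, add_mul, Finset.sum_add_distrib, Prod.snd_add]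
          split_ifs <;> simp
      map_smul' := by
        intro c a
        refine Prod.ext ?_ ?_
        · funext i
          simp only [Pi.smul_apply, smul_eq_mul, RingHom.id_apply, Finset.mul_sum, mul_assoc,
            Prod.smul_fst]
        · funext i
          simp only [Pi.smul_apply, smul_eq_mul, RingHom.id_apply, Finset.mul_sum, mul_assoc,
            Prod.smul_snd, mul_ite, mul_zero] }
  have hmem : (v, w) ∈ LinearMap.range T := by
    by_contra hne
    obtain ⟨f, hf0, hf⟩ := Submodule.exists_le_ker_of_notMem hne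
    apply hf0
    have hfe : ∀ p : (ι → Ω) × (ι → Ω), f p =
        ∑ j, (p.1 j * f (Pi.single j 1, 0) + p.2 j * f (0, Pi.single j 1)) := by
      intro p
      have e1 : p = ∑ j, (p.1 j • ((Pi.single j 1 : ι → Ω), (0 : ι → Ω)) +
          p.2 j • ((0 : ι → Ω), (Pi.single j 1 : ι → Ω))) := by
        refine Prod.ext ?_ ?_
        · funext i
          rw [Prod.fst_sum, Finset.sum_apply, Finset.sum_eq_single i]
          · simp
          · intro j _ hj
            simp [hj.symm]
          · intro h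
            exact absurd (Finset.mem_univ i) h
        · funext i
          rw [Prod.snd_sum, Finset.sum_apply, Finset.sum_eq_single i]
          · simp
          · intro j _ hj
            simp [hj.symm]
          · intro h
            exact absurd (Finset.mem_univ i) h
      conv_lhs => rw [e1]
      rw [map_sum]
      refine Finset.sum_congr rfl fun j _ => ?_
      rw [map_add, map_smul, map_smul, smul_eq_mul, smul_eq_mul]
    let d : ι → Ω := fun j => if n j = 2 then f (0, Pi.single j 1) else 0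
    have h1 : ∀ y : F, LogDiff D S y →
        ∑ j, (f (Pi.single j 1, 0) * φ j y + d j * φ j (D y)) = 0 := by
      intro y hy
      obtain ⟨a, rfl⟩ := hg2 y hy
      have h2 : f (T fun l => algebraMap k Ω (a l)) = 0 :=
        hf (LinearMap.mem_range_self T fun l => algebraMap k Ω (a l))
      rw [hfe] at h2
      rw [← h2]
      refine Finset.sum_congr rfl fun j _ => ?_
      congr 1
      · rw [mul_comm]
        congr 1
        change _ = ∑ l, algebraMap k Ω (a l) * φ j (g l)
        rw [map_sum]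
        refine Finset.sum_congr rfl fun l _ => ?_
        rw [map_smul, Algebra.smul_def]
      · change (if n j = 2 then f (0, Pi.single j 1) else 0) * _ =
          (if n j = 2 then ∑ l, algebraMap k Ω (a l) * φ j (D (g l)) else 0) * _
        split_ifs with h3
        · rw [mul_comm]
          congr 1
          rw [map_sum, map_sum]
          refine Finset.sum_congr rfl fun l _ => ?_
          rw [D.map_smul, map_smul, Algebra.smul_def]
        · rw [zero_mul, zero_mul]
    have h2 := indep_muL hD S hγS φ hφ n hn hγ (fun j => f (Pi.single j 1, 0)) d (fun i hi => by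
      simp only [d]
      rw [if_neg (by omega)]) h1
    rw [hfe]
    refine Finset.sum_eq_zero fun j _ => ?_
    rw [(h2 j).1, mul_zero, zero_add]
    rcases hn j with h3 | h3
    · change w j * _ = 0
      rw [hw j h3, zero_mul]
    · have h4 : f (0, Pi.single j 1) = 0 := by
        have := (h2 j).2
        simp only [d, if_pos h3] at this
        exact this
      rw [h4, mul_zero]
  obtain ⟨a, ha⟩ := hmem
  refine ⟨m, a, g, hg1, fun i => ?_, fun i hi => ?_⟩
  · have := congrFun (congrArg Prod.fst ha) i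
    exact this
  · have := congrFun (congrArg Prod.snd ha) i
    change (if n i = 2 then ∑ l, a l * φ i (D (g l)) else 0) = w i at this
    rwa [if_pos hi] at this

/-- the value `1` at `φ0` and jets `0` at `B` -/
theorem kill_valL {D : Derivation k F F} (hD : D ≠ 0)
    (S : Finset (Place k F)) {γ : ℕ} (hγS : LogGon S γ) (φ0 : F →ₐ[k] Ω) (B : Finset (F →ₐ[k] Ω))
    (μ : (F →ₐ[k] Ω) → ℕ) (hμ : ∀ φ ∈ B, μ φ = 1 ∨ μ φ = 2) (hB : φ0 ∉ B)
    (hγ : ∑ φ ∈ B, μ φ + 1 < γ) :
    ∃ (m : ℕ) (a : Fin m → Ω) (g : Fin m → F), (∀ l, LogDiff D S (g l)) ∧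
      ∑ l, a l * φ0 (g l) = 1 ∧ (∀ φ ∈ B, ∑ l, a l * φ (g l) = 0) ∧
      ∀ φ ∈ B, μ φ = 2 → ∑ l, a l * φ (D (g l)) = 0 := by
  classical
  let ι := {φ : F →ₐ[k] Ω // φ ∈ insert φ0 B}
  have hne : ∀ φ ∈ B, φ ≠ φ0 := fun φ h1 h2 => hB (h2 ▸ h1)
  obtain ⟨m, a, g, h1, h2, h3⟩ := jetsL hD S hγS (fun j : ι => (j : F →ₐ[k] Ω)) Subtype.val_injective
    (fun j => if (j : F →ₐ[k] Ω) = φ0 then 1 else μ j) (fun j => by
      split_ifs with h
      · exact Or.inl rfl
      · exact hμ _ ((Finset.mem_insert.1 j.2).resolve_left h)) (by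
      refine lt_of_eq_of_lt ?_ hγ
      rw [Finset.sum_coe_sort (insert φ0 B) (fun φ => if φ = φ0 then 1 else μ φ),
        Finset.sum_insert hB, if_pos rfl, add_comm]
      congr 1
      refine Finset.sum_congr rfl fun φ hφ => ?_
      rw [if_neg (hne φ hφ)])
    (fun j => if (j : F →ₐ[k] Ω) = φ0 then 1 else 0) (fun _ => 0) (fun _ _ => rfl)
  refine ⟨m, a, g, h1, ?_, fun φ hφ => ?_, fun φ hφ hφ2 => ?_⟩
  · have := h2 ⟨φ0, Finset.mem_insert_self _ _⟩
    simpa using this
  · have := h2 ⟨φ, Finset.mem_insert_of_mem hφ⟩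
    simp only [if_neg (hne φ hφ)] at this
    exact this
  · exact h3 ⟨φ, Finset.mem_insert_of_mem hφ⟩ (by simp only [if_neg (hne φ hφ)]; exact hφ2)

/-- the jet `(0, 1)` at `φ0` and jets `0` at `B` -/
theorem kill_jetL {D : Derivation k F F} (hD : D ≠ 0)
    (S : Finset (Place k F)) {γ : ℕ} (hγS : LogGon S γ) (φ0 : F →ₐ[k] Ω) (B : Finset (F →ₐ[k] Ω))
    (μ : (F →ₐ[k] Ω) → ℕ) (hμ : ∀ φ ∈ B, μ φ = 1 ∨ μ φ = 2) (hB : φ0 ∉ B)
    (hγ : ∑ φ ∈ B, μ φ + 2 < γ) :
    ∃ (m : ℕ) (a : Fin m → Ω) (g : Fin m → F), (∀ l, LogDiff D S (g l)) ∧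
      ∑ l, a l * φ0 (g l) = 0 ∧ ∑ l, a l * φ0 (D (g l)) = 1 ∧
      (∀ φ ∈ B, ∑ l, a l * φ (g l) = 0) ∧
      ∀ φ ∈ B, μ φ = 2 → ∑ l, a l * φ (D (g l)) = 0 := by
  classical
  let ι := {φ : F →ₐ[k] Ω // φ ∈ insert φ0 B}
  have hne : ∀ φ ∈ B, φ ≠ φ0 := fun φ h1 h2 => hB (h2 ▸ h1)
  obtain ⟨m, a, g, h1, h2, h3⟩ := jetsL hD S hγS (fun j : ι => (j : F →ₐ[k] Ω)) Subtype.val_injective
    (fun j => if (j : F →ₐ[k] Ω) = φ0 then 2 else μ j) (fun j => by
      split_ifs with h
      · exact Or.inr rfl
      · exact hμ _ ((Finset.mem_insert.1 j.2).resolve_left h)) (by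
      refine lt_of_eq_of_lt ?_ hγ
      rw [Finset.sum_coe_sort (insert φ0 B) (fun φ => if φ = φ0 then 2 else μ φ),
        Finset.sum_insert hB, if_pos rfl, add_comm]
      congr 1
      refine Finset.sum_congr rfl fun φ hφ => ?_
      rw [if_neg (hne φ hφ)])
    (fun _ => 0) (fun j => if (j : F →ₐ[k] Ω) = φ0 then 1 else 0) (fun j hj => by
      rw [if_neg]
      intro h
      rw [if_pos h] at hj
      omega)
  refine ⟨m, a, g, h1, ?_, ?_, fun φ hφ => ?_, fun φ hφ hφ2 => ?_⟩
  · exact h2 ⟨φ0, Finset.mem_insert_self _ _⟩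
  · have := h3 ⟨φ0, Finset.mem_insert_self _ _⟩ (by simp)
    simpa using this
  · exact h2 ⟨φ, Finset.mem_insert_of_mem hφ⟩
  · have := h3 ⟨φ, Finset.mem_insert_of_mem hφ⟩ (by simp only [if_neg (hne φ hφ)]; exact hφ2)
    simp only [if_neg (hne φ hφ)] at this
    exact this

theorem reg_log {D : Derivation k F F} (S : Finset (Place k F)) {f : F} (hf : RegDiff D f) :
    LogDiff D S f := fun P => (hf P).mono (by have := ep_nonneg S P; omega)

/-- there are infinitely many points -/
theorem exists_place_notMem (S : Finset (Place k F)) : ∃ P : Place k F, P ∉ S := by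
  obtain ⟨P, -, -, -, h, -, -⟩ := exists_spec (k := k) (F := F) (Ω := F) (ι := Unit)
    (fun _ => AlgHom.id k F) (fun a b _ => Subsingleton.elim a b) ∅ ∅ S
  exact ⟨P (), h ()⟩

theorem exact_of_card {b : F} (S : Finset (Place k F)) (n : Place k F → ℕ)
    (T : Finset (Place k F)) (hn : ∀ P, n P ≠ 0 → P ∈ T)
    (h : ∀ P : Place k F, -(n P : ℤ) + ep S P ≤ P.ord b) (hcard : ∑ P ∈ T, n P ≤ S.card) :
    (∀ P : Place k F, P.ord b = ep S P - n P) ∧ S.card = ∑ P ∈ T, n P := by
  classical
  have key : ∀ R : Place k F, R.ord b = ep S R - n R ∧ S.card = ∑ P ∈ T, n P := by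
    intro R
    let U : Finset (Place k F) := insert R ((finite_support (k := k) b).toFinset ∪ (T ∪ S))
    have hTU : T ⊆ U := fun P hP => Finset.mem_insert_of_mem
      (Finset.mem_union_right _ (Finset.mem_union_left _ hP))
    have hSU : S ⊆ U := fun P hP => Finset.mem_insert_of_mem
      (Finset.mem_union_right _ (Finset.mem_union_right _ hP))
    have h1 : ∑ P ∈ U, P.ord b = 0 := sum_ord_finset (k := k) (K := F) b U
      (fun P hP => Finset.mem_insert_of_mem
        (Finset.mem_union_left _ ((finite_support (k := k) b).mem_toFinset.2 hP)))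
    have h2 : ∑ P ∈ U, ep S P = S.card := by
      have h3 : ∑ P ∈ S, ep S P = ∑ P ∈ U, ep S P :=
        Finset.sum_subset hSU fun P _ hP => ep_not hP
      rw [← h3, Finset.sum_congr rfl fun P hP => ep_mem hP]
      simp
    have h3 : ∑ P ∈ U, (n P : ℤ) = ((∑ P ∈ T, n P : ℕ) : ℤ) := by
      push_cast
      symm
      refine Finset.sum_subset hTU fun P _ hP => ?_
      have : n P = 0 := by
        by_contra h0
        exact hP (hn P h0)
      rw [this]
      rfl
    have h4 : ∑ P ∈ U, (P.ord b - ep S P + n P) = ((∑ P ∈ T, n P : ℕ) : ℤ) - S.card := by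
      rw [Finset.sum_add_distrib, Finset.sum_sub_distrib, h1, h2, h3]
      ring
    have h5 : ∀ P ∈ U, 0 ≤ P.ord b - ep S P + n P := fun P _ => by
      have := h P
      omega
    have h6 := Finset.sum_nonneg h5
    have h7 := (Finset.sum_eq_zero_iff_of_nonneg h5).1 (by omega) R (Finset.mem_insert_self _ _)
    constructor
    · omega
    · omega
  obtain ⟨P, -⟩ := exists_place (k := k) (K := F)
  exact ⟨fun R => (key R).1, (key P).2⟩

/-- a curve with at least two logarithmic differentials -/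
theorem two_diffL {D : Derivation k F F} (hD : D ≠ 0) (S : Finset (Place k F))
    (hγ : LogGon S 2) (hc : 0 < canDeg k F + S.card) (hne : ¬ (canDeg k F = 0 ∧ S.card = 1)) :
    ∃ f g : F, LogDiff D S f ∧ LogDiff D S g ∧ f ≠ 0 ∧ Transcendental k (g / f) := by
  classical
  have hrat : -2 < canDeg k F → ∀ b : F, Transcendental k b → 2 ≤ Module.finrank k⟮b⟯ F := by
    intro h b hb
    by_contra hcon
    have hfin := IsFF.finite hb
    have hpos : 0 < Module.finrank k⟮b⟯ F := Module.finrank_pos
    have h1 : k⟮b⟯ = ⊤ := IntermediateField.finrank_eq_one_iff_eq_top.1 (by omega)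
    have := canDeg_rational h1
    omega
  by_cases hcpos : 0 < canDeg k F
  · obtain ⟨f, g, hf, hg, hf0, hfg⟩ := Q36.HB.two_diff hD (hrat (by omega)) hcpos
    exact ⟨f, g, reg_log S hf, reg_log S hg, hf0, hfg⟩
  have hnn : -2 < canDeg k F → 0 ≤ canDeg k F := by
    intro h
    apply canDeg_nonneg
    rintro ⟨t, ht⟩
    have := canDeg_rational ht
    omega
  have hS2 : 2 ≤ S.card := by
    by_contra hcon
    rcases lt_or_ge (-2) (canDeg k F) with h | h
    · have := hnn h
      apply hne
      omega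
    · omega
  have hS3 : 3 ≤ S.card ∨ ∀ b : F, Transcendental k b → 2 ≤ Module.finrank k⟮b⟯ F := by
    rcases lt_or_ge (-2) (canDeg k F) with h | h
    · exact Or.inr (hrat h)
    · left
      omega
  -- points outside `S`
  obtain ⟨P0, hP0⟩ := exists_place_notMem (k := k) (F := F) S
  obtain ⟨P1, hP1⟩ := exists_place_notMem (k := k) (F := F) (insert P0 S)
  obtain ⟨P2, hP2⟩ := exists_place_notMem (k := k) (F := F) (insert P1 (insert P0 S))
  simp only [Finset.mem_insert, not_or] at hP1 hP2
  let N : Place k F → Place k F → ℕ := fun Q P => (if P = P0 then 1 else 0) + if P = Q then 1 else 0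
  have hN : ∀ Q P, N Q P ≠ 0 → P ∈ ({P0, Q} : Finset (Place k F)) := by
    intro Q P h
    simp only [N] at h
    rw [Finset.mem_insert, Finset.mem_singleton]
    by_contra hcon
    rw [not_or] at hcon
    rw [if_neg hcon.1, if_neg hcon.2] at h
    exact h rfl
  have hNs : ∀ Q, Q ≠ P0 → ∑ P ∈ ({P0, Q} : Finset (Place k F)), N Q P = 2 := by
    intro Q hQ
    rw [Finset.sum_pair (Ne.symm hQ)]
    simp only [N, if_true, if_neg hQ, if_neg (Ne.symm hQ)]
  obtain ⟨Q, hQ0, hQS, hQ⟩ : ∃ Q : Place k F, Q ≠ P0 ∧ Q ∉ S ∧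
      ∀ b : F, b ≠ 0 → (∀ P : Place k F, -(N Q P : ℤ) + ep S P ≤ P.ord b) →
      P0.ord b ≠ -(N Q P0 : ℤ) := by
    by_contra hcon
    push Not at hcon
    obtain ⟨b1, hb1, h1, -⟩ := hcon P1 hP1.1 hP1.2
    obtain ⟨b2, hb2, h2, -⟩ := hcon P2 hP2.2.1 hP2.2.2
    obtain ⟨e1, c1⟩ := exact_of_card S (N P1) _ (hN P1) h1 (by rw [hNs P1 hP1.1]; exact hS2)
    obtain ⟨e2, -⟩ := exact_of_card S (N P2) _ (hN P2) h2 (by rw [hNs P2 hP2.2.1]; exact hS2)
    rw [hNs P1 hP1.1] at c1
    have h3 := hS3.resolve_left (by omega)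
    have h4 : ∀ P : Place k F, P.ord (b1 / b2) = (N P2 P : ℤ) - N P1 P := by
      intro P
      rw [P.ord_div hb1 hb2, e1, e2]
      ring
    have hP12 : P1 ≠ P2 := fun h => hP2.1 h.symm
    have h5 : Transcendental k (b1 / b2) := P1.transcendental_of_ord_ne (by
      rw [h4]
      simp only [N, if_neg hP1.1, if_neg hP12, if_true]
      norm_num)
    have h6 := finrank_le h5 (fun P => if P = P1 then 1 else 0) {P1} (fun P hP => by
      rw [Finset.mem_singleton]
      by_contra h
      simp only [if_neg h] at hP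
      exact hP rfl) (fun P => by
        rw [h4]
        simp only [N]
        split_ifs <;> push_cast)
    have h7 := h3 _ h5
    simp only [Finset.sum_singleton, if_true] at h6
    omega
  obtain ⟨g, hg0, hg1, hg2⟩ := exists_log hD S (N Q) {P0, Q} (hN Q) (by
    rw [Finset.disjoint_left]
    intro P hP
    rw [Finset.mem_insert, Finset.mem_singleton] at hP
    rcases hP with rfl | rfl
    · exact hP0
    · exact hQS) P0 (by simp only [N, if_true]; omega) hQ
  obtain ⟨f, hf0, hf1, hf2⟩ := exists_log_gon hD S hγ (fun P => if P = Q then 1 else 0) {Q}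
    (fun P hP => by
      rw [Finset.mem_singleton]
      by_contra h
      simp only [if_neg h] at hP
      exact hP rfl) (by
    rw [Finset.disjoint_left]
    intro P hP
    rw [Finset.mem_singleton] at hP
    rwa [hP]) (by simp) Q (by simp)
  refine ⟨f, g, fun P => Or.inr ?_, fun P => Or.inr ?_, hf0, Q.transcendental_of_ord_ne ?_⟩
  · by_cases hP : P = Q
    · subst hP
      rw [hf2]
      simp only [if_true]
      have := ep_nonneg S P
      push_cast
      omega
    · have := hf1 P hP
      simp only [if_neg hP] at this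
      push_cast at this
      omega
  · by_cases hP : P = P0
    · subst hP
      rw [hg2]
      have := ep_nonneg S P
      simp only [N, if_true]
      push_cast
      omega
    · have := hg1 P hP
      omega
  · rw [Q.ord_div hg0 hf0, hf2]
    have h1 := hg1 Q hQ0
    rw [ep_not hQS] at h1
    simp only [N, if_neg hQ0, if_true] at h1 ⊢
    push_cast at h1 ⊢
    omega

/-- the jet `(0, 1)` at one embedding -/
theorem jet_oneL {D : Derivation k F F} (hD : D ≠ 0) (S : Finset (Place k F)) (φ0 : F →ₐ[k] Ω) {f g : F}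
    (hf : LogDiff D S f) (hg : LogDiff D S g) (hf0 : f ≠ 0) (hfg : Transcendental k (g / f)) :
    ∃ (m : ℕ) (a : Fin m → Ω) (g : Fin m → F), (∀ l, LogDiff D S (g l)) ∧
      ∑ l, a l * φ0 (g l) = 0 ∧ ∑ l, a l * φ0 (D (g l)) = 1 := by
  have h1 : f * D g - g * D f ≠ 0 := by
    have h2 := der_ne_zero hD hfg
    intro h3
    apply h2
    have h4 : D (f * (g / f)) = D g := by rw [mul_div_cancel₀ _ hf0]
    rw [D.leibniz, smul_eq_mul, smul_eq_mul] at h4
    have h5 : f * f * D (g / f) = f * D g - g * D f := by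
      rw [← h4]
      field_simp
      ring
    rw [h3] at h5
    exact (mul_eq_zero.1 h5).resolve_left (mul_ne_zero hf0 hf0)
  have h2 : φ0 (f * D g - g * D f) ≠ 0 := by
    rw [Ne, map_eq_zero]
    exact h1
  refine ⟨2, ![-φ0 g / φ0 (f * D g - g * D f), φ0 f / φ0 (f * D g - g * D f)], ![f, g], ?_, ?_, ?_⟩
  · intro l
    fin_cases l
    · exact hf
    · exact hg
  · simp only [Fin.sum_univ_two, Matrix.cons_val_zero, Matrix.cons_val_one]
    field_simp
    ring
  · simp only [Fin.sum_univ_two, Matrix.cons_val_zero, Matrix.cons_val_one]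
    rw [div_mul_eq_mul_div, div_mul_eq_mul_div, ← add_div, div_eq_one_iff_eq h2, map_sub, map_mul,
      map_mul]
    ring

end

end Q36.HL
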