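import Pool.Agent.Q36.HL.Eli
import Pool.Agent.Q36.HL.Fo
import Pool.Agent.Q36.HB.Im

/-!
The logarithmic canonical image of varieties dominated by products of curves.
-/

set_option autoImplicit false
set_option linter.overlappingInstances false
set_option linter.unusedSectionVars false

open Polynomial FF IsDedekindDomain IntermediateField
open Pool.Agent.W602.GT Pool.Agent.W603.LV Pool.Agent.W619.PQ Pool.Agent.W619.PL
  Pool.Agent.W619.TW Pool.Agent.W619.X Pool.Agent.W619.Y Q36.PT Q36.SD Q36.HB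

namespace Q36.HL

/-- the boundary on the product of the curves: the places over a point of some `S i` -/
def ProdBd {k M : Type} [Field k] [Field M] [Algebra k M] {n : ℕ}
    (F : Fin n → IntermediateField k M) (S : ∀ i, Finset (Place k (F i))) (w : Place k M) : Prop :=
  ∃ (i : Fin n) (q : Place k (F i)) (e : ℕ), Over w q e ∧ q ∈ S i

section

variable {k L M : Type} [Field k] [CharZero k] [IsAlgClosed k] [Field L] [Field M]
  [Algebra k L] [Algebra k M] [Algebra L M] [IsScalarTower k L M] [FiniteDimensional L M]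
  [Algebra.EssFiniteType k L] {n : ℕ} (F : Fin n → IntermediateField k M)
  [hF : ∀ i, IsFF k (F i)]

/-- **The logarithmic geometric genus is positive** under Hall's condition. -/
theorem genus_hallL (hnM : Algebra.trdeg k M = n) (halg : Algebra.IsAlgebraic ↥(⨆ i, F i) M)
    {γ : Fin n → ℕ} (hγ2 : ∀ i, 2 ≤ γ i)
    (S : ∀ i, Finset (Place k (F i))) (hγ : ∀ i, LogGon (S i) (γ i))
    (B : Finset (Fin n))
    (hB : ∀ i ∈ B, Module.finrank L (IntermediateField.adjoin L (F i : Set M)) < γ i)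
    (hQ : ∀ Q : Finset (Fin n), Disjoint Q B →
      Module.finrank (IntermediateField.adjoin L {z : M | ∃ j, j ∉ Q ∧ z ∈ F j}) M ≤
        1 + ∑ j ∈ Q, (γ j - 2))
    (Bd : Place k L → Prop) (hBd : ∀ (w : Place k M) (v : Place k L) (e : ℕ),
      IsDivisorial w n → Over w v e → ProdBd F S w → Bd v) : ImageGe k L n Bd 1 0 := by
  classical
  have hessM : Algebra.EssFiniteType k M := ess_up k L M
  have hn : Algebra.trdeg k L = n := trdeg_below (K := M) hnM
  obtain ⟨y, E, hy, hE⟩ := Pool.Agent.Y172.exists_crd (k := k) (K := L) hn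
  choose E' hE' using fun i => Pool.Agent.Y172.exists_lift (L := M) hn (E i)
  have hEd := Pool.Agent.Y172.lift_dual hE hE'
  choose t ht using fun i => IsFF.exists_transcendental (k := k) (K := F i)
  have hbt : IsTranscendenceBasis k (fun i => (t i : M)) := basis_of_alg F halg hnM t ht
  let D0 : ∀ i, Derivation k (F i) (F i) := fun i => der k (F i)
  have hD0 : ∀ i, D0 i ≠ 0 := fun i => der_ne
  have hD0t : ∀ i, D0 i (t i) ≠ 0 := fun i => der_ne_zero (hD0 i) (ht i)
  have hD0tM : ∀ i, ((D0 i (t i) : F i) : M) ≠ 0 := fun i h => hD0t i (Subtype.ext h)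
  let T : Matrix (Fin n) (Fin n) M := Matrix.of fun a b => E' a (t b : M)
  have hT : T.det ≠ 0 := jac_ne hbt hEd
  let J : M := (∏ i, ((D0 i (t i) : F i) : M))⁻¹ * T.det
  have hJ : J ≠ 0 :=
    mul_ne_zero (inv_ne_zero (Finset.prod_ne_zero_iff.2 fun i _ => hD0tM i)) hT
  obtain ⟨f0, hf0, hG0⟩ : ∃ f : ∀ i, F i, (∀ i, LogDiff (D0 i) (S i) (f i)) ∧
      Algebra.trace L M (J * ∏ i, (f i : M)) ≠ 0 := by
    by_contra hcon
    push Not at hcon
    exact hJ (elim_hall_oneL F hγ2 S hγ B hB hQ hD0 J hcon)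
  obtain ⟨ω, h1, h2, h2', h3⟩ := trace_pluriL (K := L) hn Bd (wedge F D0 t f0)
    (wedge_pluri F D0 t f0)
    (fun Q P e hQ hQd hP => wedge_regL F hD0 ht S hf0 Q fun i q e' hq hqS =>
      hP (hBd Q P e hQd hQ ⟨i, q, e', hq, hqS⟩)) (fun Q _ => wedge_logL F hD0 ht S hf0 Q)
  refine ⟨fun _ => ω, fun _ => ⟨h1, fun v hv hb D hD => ?_, fun v hv _ D hD => ?_⟩, E,
    fun _ => ?_, ?_⟩
  · exact Pool.Agent.W303.PG.dom_of_reg (h2 v hv hb D hD)
  · exact Pool.Agent.W303.PG.dom_of_reg (h2' v hv D hD)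
  · change ω E ≠ 0
    rw [h3 E E' hE']
    intro h0
    apply hG0
    rw [← h0]
    congr 1
    unfold wedge
    rw [Finset.prod_div_distrib]
    change (∏ i, ((D0 i (t i) : F i) : M))⁻¹ * T.det * _ = _ * T.det
    rw [div_eq_mul_inv]
    ring
  · exact algebraicIndependent_empty_type_iff.2 (algebraMap k L).injective

/-- **The dimension of the canonical image.** -/
theorem image_hallL (hnM : Algebra.trdeg k M = n) (halg : Algebra.IsAlgebraic ↥(⨆ i, F i) M)
    {γ : Fin n → ℕ} (hγ2 : ∀ i, 2 ≤ γ i)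
    (S : ∀ i, Finset (Place k (F i))) (hγ : ∀ i, LogGon (S i) (γ i))
    (B : Finset (Fin n))
    (hB : ∀ i ∈ B, 2 * Module.finrank L (IntermediateField.adjoin L (F i : Set M)) < γ i)
    (hQ : ∀ Q : Finset (Fin n), Disjoint Q B →
      Module.finrank (IntermediateField.adjoin L {z : M | ∃ j, j ∉ Q ∧ z ∈ F j}) M = 1 ∨
      2 * Module.finrank (IntermediateField.adjoin L {z : M | ∃ j, j ∉ Q ∧ z ∈ F j}) M ≤
        1 + ∑ j ∈ Q, (γ j - 2))
    (hne : ∀ i, ¬ (canDeg k (F i) = 0 ∧ (S i).card = 1))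
    (Bd : Place k L → Prop) (hBd : ∀ (w : Place k M) (v : Place k L) (e : ℕ),
      IsDivisorial w n → Over w v e → ProdBd F S w → Bd v) :
    ImageGe k L n Bd 1 (Finset.univ.filter fun i => 0 < canDeg k (F i) + (S i).card).card := by
  classical
  have hessM : Algebra.EssFiniteType k M := ess_up k L M
  have hn : Algebra.trdeg k L = n := trdeg_below (K := M) hnM
  obtain ⟨y, E, hy, hE⟩ := Pool.Agent.Y172.exists_crd (k := k) (K := L) hn
  choose E' hE' using fun i => Pool.Agent.Y172.exists_lift (L := M) hn (E i)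
  have hEd := Pool.Agent.Y172.lift_dual hE hE'
  choose t ht using fun i => IsFF.exists_transcendental (k := k) (K := F i)
  have hbt : IsTranscendenceBasis k (fun i => (t i : M)) := basis_of_alg F halg hnM t ht
  let D0 : ∀ i, Derivation k (F i) (F i) := fun i => der k (F i)
  have hD0 : ∀ i, D0 i ≠ 0 := fun i => der_ne
  have hD0t : ∀ i, D0 i (t i) ≠ 0 := fun i => der_ne_zero (hD0 i) (ht i)
  have hD0tM : ∀ i, ((D0 i (t i) : F i) : M) ≠ 0 := fun i h => hD0t i (Subtype.ext h)
  let T : Matrix (Fin n) (Fin n) M := Matrix.of fun a b => E' a (t b : M)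
  have hT : T.det ≠ 0 := jac_ne hbt hEd
  let J : M := (∏ i, ((D0 i (t i) : F i) : M))⁻¹ * T.det
  have hJ : J ≠ 0 :=
    mul_ne_zero (inv_ne_zero (Finset.prod_ne_zero_iff.2 fun i _ => hD0tM i)) hT
  -- the forms
  have hform : ∀ f : ∀ i, F i, ∃ ω : (Fin n → Derivation k L L) → L,
      (∀ i, LogDiff (D0 i) (S i) (f i)) → (IsSec k L n Bd {1} 1 0 ω ∧
      ω E = Algebra.trace L M (J * ∏ i, (f i : M))) := by
    intro f
    by_cases hf : ∀ i, LogDiff (D0 i) (S i) (f i)
    · obtain ⟨ω, h1, h2, h2', h3⟩ := trace_pluriL (K := L) hn Bd (wedge F D0 t f)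
        (wedge_pluri F D0 t f)
        (fun Q P e hQ hQd hP => wedge_regL F hD0 ht S hf Q fun i q e' hq hqS =>
          hP (hBd Q P e hQd hQ ⟨i, q, e', hq, hqS⟩)) (fun Q _ => wedge_logL F hD0 ht S hf Q)
      refine ⟨ω, fun _ => ⟨⟨h1, fun v hv hb D hD => ?_, fun v hv _ D hD => ?_⟩, ?_⟩⟩
      · exact Pool.Agent.W303.PG.dom_of_reg (h2 v hv hb D hD)
      · exact Pool.Agent.W303.PG.dom_of_reg (h2' v hv D hD)
      · rw [h3 E E' hE']
        congr 1
        unfold wedge
        rw [Finset.prod_div_distrib]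
        change _ * T.det = (∏ i, ((D0 i (t i) : F i) : M))⁻¹ * T.det * _
        rw [div_eq_mul_inv]
        ring
    · exact ⟨fun _ => 0, fun h => absurd h hf⟩
  choose ω hω using hform
  -- a nonzero form
  obtain ⟨f0, hf0, hG0⟩ : ∃ f : ∀ i, F i, (∀ i, LogDiff (D0 i) (S i) (f i)) ∧
      Algebra.trace L M (J * ∏ i, (f i : M)) ≠ 0 := by
    by_contra hcon
    push Not at hcon
    refine hJ (elim_hall_oneL F hγ2 S hγ B (fun i hi => ?_) (fun Q hQB => ?_) hD0 J hcon)
    · have := hB i hi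
      omega
    · rcases hQ Q hQB with h | h <;> omega
  set G0 := Algebra.trace L M (J * ∏ i, (f0 i : M)) with hG0e
  let A : Set L := {x | ∃ f : ∀ i, F i, (∀ i, LogDiff (D0 i) (S i) (f i)) ∧
    x = Algebra.trace L M (J * ∏ i, (f i : M)) / G0}
  obtain ⟨x, hxA, hx⟩ := exists_indep hn A hbt
    (Finset.univ.filter fun i => 0 < canDeg k (F i) + (S i).card) (by
    intro d d' hd hA i hi
    have hchar : CharZero L := charZero_of_injective_algebraMap (algebraMap k L).injective
    have hΩ := AlgHom.card L M (AlgebraicClosure M)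
    have hpos : 0 < Module.finrank L M := Module.finrank_pos
    obtain ⟨σ0⟩ : Nonempty (M →ₐ[L] AlgebraicClosure M) :=
      Fintype.card_pos_iff.1 (by rw [hΩ]; exact hpos)
    have h1 := elim_hallL F hγ2 S hγ B hB hQ hD0 (Ω := AlgebraicClosure M)
      (fun σ => σ (d' J - algebraMap L M (d G0 / G0) * J))
      (fun i σ => σ (J * (d' (t i : M) / ((D0 i (t i) : F i) : M))))
      (fun f hf => by
        refine relation F ht hD0t J d d' hd (d G0 / G0) ?_
        have h2 := hA _ ⟨f, hf, rfl⟩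
        have h3 : d (Algebra.trace L M (J * ∏ i, (f i : M)) / G0 * G0) =
            d (Algebra.trace L M (J * ∏ i, (f i : M))) := by
          rw [div_mul_cancel₀ _ hG0]
        rw [d.leibniz, h2, smul_zero, add_zero, smul_eq_mul] at h3
        rw [← h3]
        ring) i (Finset.mem_filter.1 hi).2 (hne i) σ0
    have h2 := (map_eq_zero σ0).1 h1
    have h3 := (mul_eq_zero.1 h2).resolve_left hJ
    exact (div_eq_zero_iff.1 h3).resolve_right (hD0tM i))
  choose f hf hxf using hxA
  have hne : ∀ l, Algebra.trace L M (J * ∏ i, (f l i : M)) ≠ 0 := by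
    intro l h0
    have h1 := hx.transcendental l
    rw [hxf l, h0, zero_div] at h1
    exact h1 isAlgebraic_zero
  refine ⟨Fin.cons (ω f0) fun l => ω (f l), fun l => ?_, E, fun l => ?_, ?_⟩
  · refine Fin.cases ?_ (fun l => ?_) l
    · rw [Fin.cons_zero]
      exact (hω f0 hf0).1
    · rw [Fin.cons_succ]
      exact (hω (f l) (hf l)).1
  · refine Fin.cases ?_ (fun l => ?_) l
    · rw [Fin.cons_zero, (hω f0 hf0).2]
      exact hG0
    · rw [Fin.cons_succ, (hω (f l) (hf l)).2]
      exact hne l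
  · have h1 : (fun l : Fin (Finset.univ.filter fun i => 0 < canDeg k (F i) + (S i).card).card =>
        (Fin.cons (ω f0) (fun l => ω (f l)) : Fin (_ + 1) → (Fin n → Derivation k L L) → L)
          l.succ E / (Fin.cons (ω f0) (fun l => ω (f l)) :
            Fin (_ + 1) → (Fin n → Derivation k L L) → L) 0 E) = x := by
      funext l
      rw [Fin.cons_succ, Fin.cons_zero, (hω f0 hf0).2, (hω (f l) (hf l)).2, hxf l]
    rw [h1]
    exact hx

end

end Q36.HL
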