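import Pool.Agent.W619.PQ.Reg
import Pool.Agent.W619.TW.Span

/-!
Multipliers with simple poles at given points.
-/

set_option autoImplicit false
set_option linter.overlappingInstances false
set_option linter.unusedSectionVars false

open Polynomial FF IsDedekindDomain IntermediateField
open Pool.Agent.W603.LV Pool.Agent.W619.PQ

namespace Q36.HL

section

variable {k F : Type} [Field k] [Field F] [Algebra k F]

open scoped Classical in
/-- the order of vanishing at the boundary -/
noncomputable def ep (B : Finset (Place k F)) (P : Place k F) : ℤ := if P ∈ B then 1 else 0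

theorem ep_nonneg (B : Finset (Place k F)) (P : Place k F) : 0 ≤ ep B P := by
  unfold ep
  split_ifs <;> norm_num

theorem ep_le (B : Finset (Place k F)) (P : Place k F) : ep B P ≤ 1 := by
  unfold ep
  split_ifs <;> norm_num

theorem ep_mem {B : Finset (Place k F)} {P : Place k F} (h : P ∈ B) : ep B P = 1 := if_pos h

theorem ep_not {B : Finset (Place k F)} {P : Place k F} (h : P ∉ B) : ep B P = 0 := if_neg h

/-- functions regular at all points which are not poles of `x`, which vanish at `B` -/
def BL (x : F) (B : Finset (Place k F)) : Submodule k F where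
  carrier := {y | ∀ P : Place k F, 0 ≤ P.ord x → Ge P (ep B P) y}
  add_mem' := fun ha hb P hP => (ha P hP).add (hb P hP)
  zero_mem' := fun P _ => Ge.zero
  smul_mem' := by
    intro c y hy P hP
    rw [Algebra.smul_def]
    simpa using (Ge.const (P := P) c).mul (hy P hP)

theorem BL_mul_pow {x y : F} {B : Finset (Place k F)} (hy : y ∈ BL x B) (n : ℕ) :
    x ^ n * y ∈ BL x B := by
  intro P hP
  have h0 : Ge P 0 x := Or.inr hP
  have h1 : Ge P 0 (x ^ n) := by simpa using h0.pow n
  simpa using h1.mul (hy P hP)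

/-- clearing denominators by polynomials in `x` -/
theorem clearL [CharZero k] [IsAlgClosed k] [IsFF k F] {x : F} (hx : Transcendental k x)
    (B : Finset (Place k F)) (y : F) :
    ∃ g : k[X], g ≠ 0 ∧ aeval x g * y ∈ BL x B ∧
      ∀ c : k, (∀ P : Place k F, 0 < P.ord (x - algebraMap k F c) → Ge P (ep B P) y) →
        g.eval c ≠ 0 := by
  classical
  obtain ⟨g1, hg1, hg1y, hg1c⟩ := clear hx y
  have hres : ∀ P : Place k F, ∃ c : k, 0 ≤ P.ord x → Ge P 1 (x - algebraMap k F c) := by
    intro P
    by_cases h : 0 ≤ P.ord x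
    · obtain ⟨c, hc⟩ := exists_const P (f := x) (Or.inr h)
      exact ⟨c, fun _ => hc⟩
    · exact ⟨0, fun h' => absurd h' h⟩
  choose c hc using hres
  let Z : Finset (Place k F) := B.filter fun P => ¬ Ge P 1 y ∧ 0 ≤ P.ord x
  let g2 : k[X] := ∏ P ∈ Z, (X - C (c P))
  have hg2 : g2 ≠ 0 := Finset.prod_ne_zero_iff.2 fun P _ => X_sub_C_ne_zero _
  have hag : aeval x g2 = ∏ P ∈ Z, (x - algebraMap k F (c P)) := by
    simp only [g2, map_prod, map_sub, aeval_X, aeval_C]
  refine ⟨g2 * g1, mul_ne_zero hg2 hg1, ?_, ?_⟩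
  · intro Q hQ
    rw [map_mul, mul_assoc]
    have h1 := hg1y Q hQ
    have hreg : ∀ P ∈ Z, Ge Q 0 (x - algebraMap k F (c P)) := fun P _ =>
      Ge.sub (Or.inr hQ) (Ge.const _)
    by_cases hQZ : Q ∈ Z
    · have h2 : Ge Q (∑ P ∈ Z, if P = Q then 1 else 0) (aeval x g2) := by
        rw [hag]
        apply Ge.prod
        intro P hP
        by_cases hPQ : P = Q
        · rw [if_pos hPQ, hPQ]
          exact hc Q hQ
        · rw [if_neg hPQ]
          exact hreg P hP
      rw [Finset.sum_ite_eq' Z Q (fun _ => (1 : ℤ)), if_pos hQZ] at h2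
      have h3 := h2.mul h1
      exact h3.mono (by have := ep_le B Q; omega)
    · have h2 : Ge Q 0 (aeval x g2) := by
        rw [hag]
        have := Ge.prod (P := Q) Z _ (fun _ => (0 : ℤ)) hreg
        simpa using this
      by_cases hQB : Q ∈ B
      · have h3 : Ge Q 1 y := by
          by_contra h
          exact hQZ (Finset.mem_filter.2 ⟨hQB, h, hQ⟩)
        have h4 : Ge Q 0 (aeval x g1) := ge_aeval Q (Or.inr hQ) g1
        rw [ep_mem hQB]
        simpa using h2.mul (h4.mul h3)
      · rw [ep_not hQB]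
        simpa using h2.mul h1
  · intro c' hc'
    rw [eval_mul]
    refine mul_ne_zero ?_ (hg1c c' fun P hP => (hc' P hP).mono (ep_nonneg B P))
    rw [eval_prod, Finset.prod_ne_zero_iff]
    intro P hP
    rw [eval_sub, eval_X, eval_C]
    intro h
    have h1 : c' = c P := sub_eq_zero.1 h
    obtain ⟨hPB, h2, h3⟩ := Finset.mem_filter.1 hP
    have h4 := (hc P h3).resolve_left (sub_const_ne hx _)
    have h5 := hc' P (by rw [h1]; omega)
    rw [ep_mem hPB] at h5
    exact h2 h5

variable {x : F} (lam : F →ₗ[k] k)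
  [CharZero k] [IsFF k F] (hI : ∀ y ∈ BI (k := k) x, lam y = 0) (B : Finset (Place k F))

theorem SS_of_BL (hB : ∀ y ∈ BL x B, lam y = 0) {y : F} (hy : y ∈ BL x B) :
    ∃ p : k[X], eU p = SS lam hI y := by
  apply exists_poly_of_coeff
  intro j hj
  rw [SS_coeff]
  apply hB
  obtain ⟨n, hn⟩ := Int.eq_ofNat_of_zero_le (show 0 ≤ j - 1 by omega)
  rw [hn, zpow_natCast]
  exact BL_mul_pow hy n

variable [IsAlgClosed k]

theorem SS_memL (hx : Transcendental k x) (hB : ∀ y ∈ BL x B, lam y = 0) (y : F) :
    ∃ r : k⟮x⟯, iota hx r = SS lam hI y := by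
  have hx0 : x ≠ 0 := by
    rintro rfl
    exact hx isAlgebraic_zero
  obtain ⟨g, hg, hgy, -⟩ := clearL hx B y
  obtain ⟨p, hp⟩ := SS_of_BL lam hI B hB hgy
  rw [SS_poly lam hI hx0] at hp
  refine ⟨px x p / px x g, ?_⟩
  rw [map_div₀, iota_px, iota_px, hp, mul_div_cancel_left₀ _ (eU_ne hg)]

/-- The functional is the coefficient functional of the trace form with a fixed multiplier. -/
theorem exists_multL (hx : Transcendental k x) (hB : ∀ y ∈ BL x B, lam y = 0)
    (hne : lam ≠ 0) :
    ∃ f : F, f ≠ 0 ∧ ∀ y, iota hx (Algebra.trace k⟮x⟯ F (f * y)) = SS lam hI y := by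
  classical
  choose T hT using SS_memL lam hI B hx hB
  let T' : F →ₗ[k⟮x⟯] k⟮x⟯ :=
    { toFun := T
      map_add' := by
        intro a b
        apply iota_injective hx
        rw [map_add, hT, hT, hT, map_add]
      map_smul' := by
        intro r y
        apply iota_injective hx
        rw [hT, RingHom.id_apply, smul_eq_mul, map_mul, hT]
        exact SS_smul lam hI hx r y }
  have hfin := IsFF.finite hx
  have hchar : CharZero k⟮x⟯ := charZero_of_injective_algebraMap (algebraMap k k⟮x⟯).injective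
  have hsep : Algebra.IsSeparable k⟮x⟯ F := inferInstance
  have hnd := traceForm_nondegenerate k⟮x⟯ F
  obtain ⟨f, hf⟩ := (LinearMap.BilinForm.toDual (Algebra.traceForm k⟮x⟯ F) hnd).surjective T'
  have hf' : ∀ y, Algebra.trace k⟮x⟯ F (f * y) = T y := by
    intro y
    have := congrArg (fun φ : Module.Dual k⟮x⟯ F => φ y) hf
    have h2 : Algebra.trace k⟮x⟯ F (f * y) = T' y := by
      simpa [LinearMap.BilinForm.toDual_def, Algebra.traceForm_apply] using this
    exact h2
  refine ⟨f, ?_, fun y => by rw [hf', hT]⟩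
  rintro rfl
  apply hne
  ext y
  have h1 := hf' y
  rw [zero_mul, map_zero] at h1
  have h2 := hT y
  rw [← h1, map_zero] at h2
  have h3 := congrArg (fun s : HahnSeries ℤ k => s.coeff 1) h2
  simp only [SS_coeff, HahnSeries.coeff_zero, sub_self, zpow_zero, one_mul] at h3
  rw [← h3]; rfl

end

section

variable {k F : Type} [Field k] [Field F] [Algebra k F] [CharZero k] [IsFF k F] [IsAlgClosed k]

/-- the multiplier at the points which are not poles of `x` -/
theorem mult_log {x : F} (hx : Transcendental k x) (D : Derivation k F F) (hD : D x = 1)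
    (lam : F →ₗ[k] k) (hI : ∀ y ∈ BI (k := k) x, lam y = 0) (B : Finset (Place k F))
    (hB : ∀ y ∈ BL x B, lam y = 0)
    {f : F} (hf0 : f ≠ 0)
    (hf : ∀ y, iota hx (Algebra.trace k⟮x⟯ F (f * y)) = SS lam hI y) (P : Place k F)
    (hPx : 0 ≤ P.ord x) : vo P D - ep B P ≤ P.ord f := by
  classical
  have hD0 : D ≠ 0 := by
    rintro rfl
    simp at hD
  have hfin := IsFF.finite hx
  have hx0 : x ≠ 0 := by
    rintro rfl
    exact hx isAlgebraic_zero
  by_contra hcon
  push Not at hcon
  have hsF : IsScalarTower k k⟮x⟯ F := inferInstance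
  let xx : k⟮x⟯ := ⟨x, mem_adjoin_simple_self k x⟩
  obtain ⟨c, hc⟩ := exists_const P (f := x) (Or.inr hPx)
  have hs0 := sub_const_ne (k := k) hx c
  have hc' := hc.resolve_left hs0
  set s : F := x - algebraMap k F c with hs
  let ss : k⟮x⟯ := xx - algebraMap k k⟮x⟯ c
  have hss : algebraMap k⟮x⟯ F ss = s := rfl
  obtain ⟨e0, q, hq⟩ := exists_over (K := k⟮x⟯) P ⟨ss, by
    rw [hss]; omega⟩
  have hDs : D s = 1 := by
    rw [hs, map_sub, hD, Derivation.map_algebraMap, sub_zero]
  have hvo := (ord_der P hD0 (f := s) (by omega)).2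
  rw [hDs, P.ord_one] at hvo
  have hfs := finite_support (k := k) s
  have hqs : 0 < q.ord ss := by
    have h1 := hq.2 ss
    rw [hss] at h1
    have h16 : (0 : ℤ) < e0 * q.ord ss := by omega
    exact (pos_iff_pos_of_mul_pos h16).1 (by exact_mod_cast hq.1)
  -- the places over `q`
  set Z := hfs.toFinset.filter fun w => 0 < w.ord s with hZ
  have hPZ : P ∈ Z := by
    rw [hZ, Finset.mem_filter, hfs.mem_toFinset]
    refine ⟨?_, by omega⟩
    show P.ord s ≠ 0
    omega
  -- a function with prescribed orders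
  obtain ⟨u, hu0, huP, huZ⟩ : ∃ u : F, u ≠ 0 ∧ P.ord u = ep B P ∧
      ∀ w ∈ Z, w ≠ P → Ge w 1 u := by
    obtain ⟨π, hπ0, hπ⟩ := P.surj
    obtain ⟨u, hu1, hu2⟩ := approx_one (Z.erase P) P (by simp) (π ^ (ep B P)) 1
    have hπn : π ^ (ep B P) ≠ 0 := zpow_ne_zero _ hπ0
    have hord : P.ord (π ^ (ep B P)) = ep B P := by rw [P.ord_zpow, hπ, mul_one]
    have hnn := ep_nonneg B P
    have hle := ep_le B P
    obtain ⟨u', hu1', hu2'⟩ := approx_one (Z.erase P) P (by simp) (π ^ (ep B P)) 2
    have h2 : u' ≠ 0 ∧ P.ord u' = ep B P := by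
      by_cases h3 : u' - π ^ (ep B P) = 0
      · rw [sub_eq_zero.1 h3]
        exact ⟨hπn, hord⟩
      · have h4 := hu1'.resolve_left h3
        have h5 := P.ord_add_eq (f := π ^ (ep B P)) (g := u' - π ^ (ep B P)) hπn h3
          (by omega)
        rwa [add_sub_cancel, hord] at h5
    exact ⟨u', h2.1, h2.2, fun w hw hwP =>
      (hu2' w (Finset.mem_erase.2 ⟨hwP, hw⟩)).mono (by norm_num)⟩
  obtain ⟨b0, hb1, hb2⟩ := exists_contra q P e0 hq Z
    (by
      intro w e hw
      have h1 := hw.2 ss
      rw [hss] at h1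
      have h3 := hw.1
      have h4 : 0 < (e : ℤ) * q.ord ss := mul_pos (by exact_mod_cast h3) hqs
      rw [hZ, Finset.mem_filter, hfs.mem_toFinset]
      refine ⟨?_, by omega⟩
      show w.ord s ≠ 0
      omega)
    (s * f * u) (mul_ne_zero (mul_ne_zero hs0 hf0) hu0)
    (by rw [P.ord_mul (mul_ne_zero hs0 hf0) hu0, P.ord_mul hs0 hf0, huP]; omega)
  apply hb2
  set b := u * b0 with hb
  have hbZ : ∀ w ∈ Z, Ge w (ep B w) b := by
    intro w hw
    by_cases hwP : w = P
    · subst hwP
      have h1 : Ge w (ep B w) u := Or.inr huP.ge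
      simpa using h1.mul (hb1 w hw)
    · have h1 := (huZ w hw hwP).mul (hb1 w hw)
      exact h1.mono (by have := ep_le B w; omega)
  set r := Algebra.trace k⟮x⟯ F (f * b) with hr
  have h5 : Algebra.trace k⟮x⟯ F (s * f * u * b0) = ss * r := by
    have e1 : s * f * u * b0 = s * (f * b) := by rw [hb]; ring
    rw [e1, hr]
    exact trace_mul_left ss (f * b)
  rw [h5]
  -- clear denominators
  obtain ⟨g, hg0, hgB, hgc⟩ := clearL hx B b
  have hgc' : g.eval c ≠ 0 := by
    apply hgc
    intro w hw
    change 0 < w.ord s at hw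
    apply hbZ
    rw [hZ, Finset.mem_filter, hfs.mem_toFinset]
    refine ⟨?_, hw⟩
    show w.ord s ≠ 0
    omega
  obtain ⟨p, hp⟩ := SS_of_BL lam hI B hB hgB
  have h6 : px x g * r = px x p := by
    apply iota_injective hx
    rw [map_mul, iota_px, iota_px, hp, SS_poly lam hI hx0, ← hf b]
  -- regularity at q
  have hqx : Ge q 0 xx := by
    have h7 : Ge q 1 ss := Or.inr (by omega)
    have h8 := (h7.mono (by omega : (0 : ℤ) ≤ 1)).add (Ge.const (P := q) c)
    have e : ss + algebraMap k k⟮x⟯ c = xx := sub_add_cancel _ _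
    rwa [e] at h8
  have hpr : Ge q 0 (px x p) := ge_aeval q hqx p
  have hgr : q.ord (px x g) = 0 := by
    have h7 : Ge q 0 (px x g) := ge_aeval q hqx g
    have h8 : Ge q 1 (px x g - algebraMap k k⟮x⟯ (g.eval c)) := by
      have h9 : X - C c ∣ g - C (g.eval c) := by
        rw [dvd_iff_isRoot]; simp
      obtain ⟨g', hg'⟩ := h9
      have h10 : px x g - algebraMap k k⟮x⟯ (g.eval c) = ss * px x g' := by
        have := congrArg (px x) hg'
        rw [map_sub, map_mul, map_sub] at this
        have e1 : px x (C (g.eval c)) = algebraMap k k⟮x⟯ (g.eval c) := by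
          unfold px; rw [aeval_C]
        have e2 : px x (X : k[X]) - px x (C c) = ss := by
          unfold px; rw [aeval_X, aeval_C]
        rw [e1, e2] at this
        exact this
      rw [h10]
      have h11 : Ge q 1 ss := Or.inr (by omega)
      have h12 : Ge q 0 (px x g') := ge_aeval q hqx g'
      have h13 := h11.mul h12
      rwa [add_zero] at h13
    have h12 : q.ord (algebraMap k k⟮x⟯ (g.eval c)) = 0 := q.ord_const hgc'
    have hne : algebraMap k k⟮x⟯ (g.eval c) ≠ 0 := by simpa using hgc'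
    by_cases h13 : px x g - algebraMap k k⟮x⟯ (g.eval c) = 0
    · rw [sub_eq_zero.1 h13, h12]
    · have h14 := h8.resolve_left h13
      have h15 := q.ord_add_eq hne h13 (by omega)
      rw [add_sub_cancel, h12] at h15
      exact h15.2
  have hr1 : Ge q 0 r := by
    have h7 := Ge.of_mul' (P := q) (N := 0) (m := 0) (h := px x g) (f := r)
      (fun h => hg0 (px_injective hx (by rw [h, map_zero]))) hgr (by rw [h6]; simpa using hpr)
    simpa using h7
  have h11 : Ge q 1 ss := Or.inr (by omega)
  simpa using h11.mul hr1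

end

end Q36.HL
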