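import Pool.Agent.Q36.HL.Lb
import Pool.Agent.Q36.SD.Rl

/-!
Logarithmic differentials on a curve with prescribed vanishing orders at few points.
-/

set_option autoImplicit false
set_option linter.overlappingInstances false
set_option linter.unusedSectionVars false

open Polynomial FF IsDedekindDomain IntermediateField
open Pool.Agent.W603.LV Pool.Agent.W619.PQ Q36.SD

namespace Q36.HL

section

variable {k F : Type} [Field k] [Field F] [Algebra k F] [CharZero k] [IsFF k F] [IsAlgClosed k]

theorem exists_poles (T B : Finset (Place k F)) (hTB : Disjoint T B) :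
    ∃ x : F, (∀ q ∈ T, q.ord x < 0) ∧ ∀ q ∈ B, 0 ≤ q.ord x := by
  classical
  have h1 : ∀ q : Place k F, ∃ z : F, z ≠ 0 ∧ q.ord z < 0 ∧ ∀ Q ∈ (T ∪ B).erase q, 0 < Q.ord z :=
    fun q => sep_many ((T ∪ B).erase q) q (by simp)
  choose z hz0 hz1 hz2 using h1
  refine ⟨∑ q ∈ T, z q, fun q hq => ?_, fun q hq => ?_⟩
  · rw [← Finset.add_sum_erase T z hq]
    have h2 : Ge q 1 (∑ q' ∈ T.erase q, z q') := by
      refine Ge.sum _ _ fun q' hq' => Or.inr ?_
      have := hz2 q' q (Finset.mem_erase.2 ⟨(Finset.ne_of_mem_erase hq').symm,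
        Finset.mem_union_left _ hq⟩)
      omega
    by_cases h0 : ∑ q' ∈ T.erase q, z q' = 0
    · rw [h0, add_zero]; exact hz1 q
    · have h3 := h2.resolve_left h0
      have h4 := q.ord_add_eq (hz0 q) h0 (by have := hz1 q; omega)
      rw [h4.2]; exact hz1 q
  · have h2 : Ge q 1 (∑ q' ∈ T, z q') := by
      refine Ge.sum _ _ fun q' hq' => Or.inr ?_
      have := hz2 q' q (Finset.mem_erase.2 ⟨fun h => Finset.disjoint_left.1 hTB hq' (h ▸ hq),
        Finset.mem_union_right _ hq⟩)
      omega
    rcases h2 with h2 | h2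
    · rw [h2, q.ord_zero]
    · omega

/-- the main statement for a function with poles at the points -/
theorem exists_log_x {x : F} (hx : Transcendental k x) (D : Derivation k F F) (hD : D x = 1)
    (B : Finset (Place k F)) (hB0 : ∀ P ∈ B, 0 ≤ P.ord x)
    (n : Place k F → ℕ) (hn : ∀ P, n P ≠ 0 → P.ord x < 0) (P0 : Place k F) (hP0 : 1 ≤ n P0)
    (hg : ∀ b : F, b ≠ 0 → (∀ P : Place k F, -(n P : ℤ) + ep B P ≤ P.ord b) →
      P0.ord b ≠ -(n P0 : ℤ)) :
    ∃ f : F, f ≠ 0 ∧ (∀ P : Place k F, P ≠ P0 → vo P D + n P - ep B P ≤ P.ord f) ∧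
      P0.ord f = vo P0 D + n P0 - 1 := by
  classical
  obtain ⟨S, hS, -⟩ := poles (k := k) (K := F) hx
  have hP0x : P0.ord x < 0 := hn P0 (by omega)
  obtain ⟨π, hπ0, hπ⟩ := P0.surj
  -- the test function
  obtain ⟨u, hu1, hu2⟩ := approx_one (S.erase P0) P0 (by simp) (π ^ (-(n P0 : ℤ))) 0
  have hπn : π ^ (-(n P0 : ℤ)) ≠ 0 := zpow_ne_zero _ hπ0
  have hord : P0.ord (π ^ (-(n P0 : ℤ))) = -(n P0 : ℤ) := by rw [P0.ord_zpow, hπ, mul_one]
  have hu : u ≠ 0 ∧ P0.ord u = -(n P0 : ℤ) := by
    by_cases h3 : u - π ^ (-(n P0 : ℤ)) = 0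
    · rw [sub_eq_zero.1 h3]
      exact ⟨hπn, hord⟩
    · have h4 := hu1.resolve_left h3
      have h5 := P0.ord_add_eq (f := π ^ (-(n P0 : ℤ))) (g := u - π ^ (-(n P0 : ℤ))) hπn h3
        (by omega)
      rwa [add_sub_cancel, hord] at h5
  let m : Place k F → ℕ := fun P => if P = P0 then n P0 - 1 else n P
  let BE : Submodule k F :=
    { carrier := {y | ∀ P : Place k F, P.ord x < 0 → Ge P (-(m P : ℤ)) y}
      add_mem' := fun ha hb P hP => (ha P hP).add (hb P hP)
      zero_mem' := fun P _ => Ge.zero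
      smul_mem' := by
        intro c y hy P hP
        rw [Algebra.smul_def]
        simpa using (Ge.const (P := P) c).mul (hy P hP) }
  have hnot : u ∉ BL x B ⊔ BE := by
    intro hmem
    obtain ⟨b, hb, c, hc, hbc⟩ := Submodule.mem_sup.1 hmem
    have hbu : b = u - c := by rw [← hbc]; ring
    have hcP0 : Ge P0 (-(n P0 : ℤ) + 1) c := by
      have := hc P0 hP0x
      simp only [m, if_true] at this
      refine this.mono ?_
      omega
    have hb0 : b ≠ 0 ∧ P0.ord b = -(n P0 : ℤ) := by
      rw [hbu]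
      by_cases hc0 : c = 0
      · rw [hc0, sub_zero]
        exact hu
      · have h4 := hcP0.resolve_left hc0
        have h5 := P0.ord_add_eq (f := u) (g := -c) hu.1 (neg_ne_zero.2 hc0) (by
          rw [P0.ord_neg]
          omega)
        rw [← sub_eq_add_neg, hu.2] at h5
        exact h5
    refine hg b hb0.1 (fun P => ?_) hb0.2
    rcases lt_or_ge (P.ord x) 0 with hPx | hPx
    · have hPB : P ∉ B := fun h => by
        have := hB0 P h
        omega
      rw [ep_not hPB, add_zero]
      by_cases hPP : P = P0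
      · rw [hPP]
        exact hb0.2.ge
      · have h6 : Ge P (-(n P : ℤ)) b := by
          rw [hbu]
          refine Ge.sub ?_ ?_
          · exact (hu2 P (Finset.mem_erase.2 ⟨hPP, (hS P).2 hPx⟩)).mono (by omega)
          · have := hc P hPx
            simp only [m, if_neg hPP] at this
            exact this
        exact h6.resolve_left hb0.1
    · have := (hb P hPx).resolve_left hb0.1
      omega
  obtain ⟨lam, hlamu, hle⟩ := Submodule.exists_le_ker_of_notMem hnot
  have hB : ∀ y ∈ BL x B, lam y = 0 := fun y hy => hle (Submodule.mem_sup_left hy)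
  have hI' : ∀ y : F, (∀ P : Place k F, P.ord x < 0 → Ge P (-(m P : ℤ)) y) → lam y = 0 :=
    fun y hy => hle (Submodule.mem_sup_right hy)
  have hI : ∀ y ∈ BI (k := k) x, lam y = 0 := fun y hy =>
    hI' y fun P hP => (hy P hP).mono (by omega)
  have hlam : lam ≠ 0 := by
    rintro rfl
    exact hlamu rfl
  obtain ⟨f, hf0, hf⟩ := exists_multL lam hI B hx hB hlam
  have h1 : ∀ P : Place k F, vo P D + m P - ep B P ≤ P.ord f := by
    intro P
    rcases lt_or_ge (P.ord x) 0 with hPx | hPx
    · have hPB : P ∉ B := fun h => by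
        have := hB0 P h
        omega
      rw [ep_not hPB, sub_zero]
      exact pole_vanish hx D hD lam m hI hI' hf0 hf P hPx
    · have h2 := mult_log hx D hD lam hI B hB hf0 hf P hPx
      have h3 : m P = 0 := by
        by_cases hPP : P = P0
        · rw [hPP] at hPx
          omega
        · simp only [m, if_neg hPP]
          by_contra h0
          have := hn P h0
          omega
      rw [h3]
      push_cast
      omega
  have hPB0 : P0 ∉ B := fun h => by
    have := hB0 P0 h
    omega
  refine ⟨f, hf0, fun P hP => ?_, ?_⟩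
  · have := h1 P
    simp only [m, if_neg hP] at this
    exact this
  · have h2 := h1 P0
    rw [ep_not hPB0, sub_zero] at h2
    simp only [m, if_true] at h2
    by_contra hne
    apply hlamu
    have h3 : lam u = (SS lam hI u).coeff 1 := by
      rw [SS_coeff]
      simp
    rw [h3, ← hf u]
    refine coeff_trace hx D hD (fun P hPx => ?_) P0 hP0x
    by_cases hPP : P = P0
    · rw [hPP]
      right
      rw [P0.ord_mul hf0 hu.1, hu.2]
      omega
    · have hPB : P ∉ B := fun h => by
        have := hB0 P h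
        omega
      have h4 : Ge P (vo P D) f := Or.inr (by
        have := h1 P
        rw [ep_not hPB] at this
        omega)
      simpa using h4.mul (hu2 P (Finset.mem_erase.2 ⟨hPP, (hS P).2 hPx⟩))

/-- **Logarithmic differentials with prescribed vanishing orders.** -/
theorem exists_log {D : Derivation k F F} (hD : D ≠ 0) (B : Finset (Place k F))
    (n : Place k F → ℕ) (T : Finset (Place k F)) (hn : ∀ P, n P ≠ 0 → P ∈ T) (hTB : Disjoint T B)
    (P0 : Place k F) (hP0 : 1 ≤ n P0)
    (hg : ∀ b : F, b ≠ 0 → (∀ P : Place k F, -(n P : ℤ) + ep B P ≤ P.ord b) →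
      P0.ord b ≠ -(n P0 : ℤ)) :
    ∃ f : F, f ≠ 0 ∧ (∀ P : Place k F, P ≠ P0 → vo P D + n P - ep B P ≤ P.ord f) ∧
      P0.ord f = vo P0 D + n P0 - 1 := by
  classical
  obtain ⟨x, hx, hxB⟩ := exists_poles T B hTB
  have hxt : Transcendental k x := P0.transcendental_of_ord_ne (by
    have := hx P0 (hn P0 (by omega))
    omega)
  have hDx := der_ne_zero hD hxt
  obtain ⟨f, hf0, hf1, hf2⟩ := exists_log_x hxt ((D x)⁻¹ • D) (by simp [hDx]) B hxB n
    (fun P hP => hx P (hn P hP)) P0 hP0 hg
  refine ⟨f * D x, mul_ne_zero hf0 hDx, fun P hP => ?_, ?_⟩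
  · have h1 := hf1 P hP
    rw [vo_smul P hD (inv_ne_zero hDx), P.ord_inv] at h1
    rw [P.ord_mul hf0 hDx]
    omega
  · rw [vo_smul P0 hD (inv_ne_zero hDx), P0.ord_inv] at hf2
    rw [P0.ord_mul hf0 hDx, hf2]
    ring

/-- Every nonconstant function which vanishes at `B` has degree at least `γ`. -/
def LogGon (B : Finset (Place k F)) (γ : ℕ) : Prop :=
  ∀ b : F, Transcendental k b → (∀ P ∈ B, 0 < P.ord b) → γ ≤ Module.finrank k⟮b⟯ F

/-- the version with the gonality -/
theorem exists_log_gon {D : Derivation k F F} (hD : D ≠ 0) (B : Finset (Place k F)) {γ : ℕ}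
    (hγ : LogGon B γ)
    (n : Place k F → ℕ) (T : Finset (Place k F)) (hn : ∀ P, n P ≠ 0 → P ∈ T) (hTB : Disjoint T B)
    (hnγ : ∑ P ∈ T, n P < γ)
    (P0 : Place k F) (hP0 : 1 ≤ n P0) :
    ∃ f : F, f ≠ 0 ∧ (∀ P : Place k F, P ≠ P0 → vo P D + n P - ep B P ≤ P.ord f) ∧
      P0.ord f = vo P0 D + n P0 - 1 := by
  classical
  refine exists_log hD B n T hn hTB P0 hP0 fun b hb h1 h2 => ?_
  have hbt : Transcendental k b := P0.transcendental_of_ord_ne (by omega)
  have h3 := finrank_le hbt n T hn (fun P => by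
    have := h1 P
    have := ep_nonneg B P
    omega)
  have h4 := hγ b hbt (fun P hP => by
    have h5 := h1 P
    have h6 : n P = 0 := by
      by_contra h
      exact Finset.disjoint_left.1 hTB (hn P h) hP
    rw [ep_mem hP, h6] at h5
    push_cast at h5
    omega)
  omega

end

end Q36.HL
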